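import Pool.Agent.W544.HC.Quot

/-! The induced Finsler function on the quotient. -/

set_option autoImplicit false

open scoped Manifold ContDiff Topology
open Set

noncomputable section

namespace Pool.Agent.W544.HC

variable {E : Type} [NormedAddCommGroup E] [NormedSpace ℝ E] {N : Type} [TopologicalSpace N]
  {f : E → N}

/-- the fibres of `f` are related by smooth deck maps preserving `F` -/
def FDeck (F : TangentBundle 𝓘(ℝ, E) E → ℝ) (f : E → N) : Prop :=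
  ∀ x y : E, f x = f y → ∃ φ : E → E, ContDiff ℝ ∞ φ ∧ φ x = y ∧ (∀ z, f (φ z) = f z) ∧
    ∀ v, F (tangentMap 𝓘(ℝ, E) 𝓘(ℝ, E) φ v) = F v

omit [TopologicalSpace N] in
lemma FDeck.deck {F : TangentBundle 𝓘(ℝ, E) E → ℝ} (h : FDeck F f) : Deck f := by
  intro x y hxy
  obtain ⟨φ, h1, h2, h3, -⟩ := h x y hxy
  exact ⟨φ, h1, h2, h3⟩

variable [ChartedSpace E N] [IsManifold 𝓘(ℝ, E) ∞ N]

lemma mk_eq' {M : Type} [TopologicalSpace M] [ChartedSpace E M] {a b : M} (h : a = b)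
    {v : TangentSpace 𝓘(ℝ, E) a} {w : TangentSpace 𝓘(ℝ, E) b} (hv : (v : E) = (w : E)) :
    (⟨a, v⟩ : TangentBundle 𝓘(ℝ, E) M) = ⟨b, w⟩ := by
  subst h
  exact congrArg (Bundle.TotalSpace.mk a) hv

lemma tangentMap_congr' {M M' : Type} [TopologicalSpace M] [ChartedSpace E M]
    [TopologicalSpace M'] [ChartedSpace E M'] {g g' : M → M'} (w : TangentBundle 𝓘(ℝ, E) M)
    (h : g =ᶠ[𝓝 w.1] g') :
    tangentMap 𝓘(ℝ, E) 𝓘(ℝ, E) g w = tangentMap 𝓘(ℝ, E) 𝓘(ℝ, E) g' w := by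
  apply mk_eq' h.eq_of_nhds
  have := h.mfderiv_eq (I := 𝓘(ℝ, E)) (I' := 𝓘(ℝ, E))
  exact congrArg (fun L : E →L[ℝ] E => L w.2) this

/-- the induced function -/
def ind (hf : IsLocalHomeomorph f) (hs : Function.Surjective f)
    (F : TangentBundle 𝓘(ℝ, E) E → ℝ) (w : TangentBundle 𝓘(ℝ, E) N) : ℝ :=
  F (tangentMap 𝓘(ℝ, E) 𝓘(ℝ, E) (hf.localInverseAt (Function.surjInv hs w.1)) w)

theorem ind_induced (hf : IsLocalHomeomorph f) (hs : Function.Surjective f)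
    (hc : ∀ q : N, ∃ x : E, chartAt E q = hf.localInverseAt x)
    {F : TangentBundle 𝓘(ℝ, E) E → ℝ} (hF : FDeck F f) (v : TangentBundle 𝓘(ℝ, E) E) :
    ind hf hs F (tangentMap 𝓘(ℝ, E) 𝓘(ℝ, E) f v) = F v := by
  set a := Function.surjInv hs (f v.1) with ha
  have hfa : f a = f v.1 := Function.surjInv_eq hs _
  have hsrc : f v.1 ∈ (hf.localInverseAt a).source := by
    rw [← hfa]; exact hf.apply_self_mem_localInverseAt_source
  obtain ⟨φ, h1, h2, h3, h4⟩ := hF v.1 a hfa.symm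
  show F (tangentMap 𝓘(ℝ, E) 𝓘(ℝ, E) (hf.localInverseAt a) (tangentMap 𝓘(ℝ, E) 𝓘(ℝ, E) f v)) = F v
  have hd1 : MDifferentiableAt 𝓘(ℝ, E) 𝓘(ℝ, E) f v.1 :=
    (f_contMDiffAt hf hF.deck hc v.1).mdifferentiableAt (by simp)
  have hd2 : MDifferentiableAt 𝓘(ℝ, E) 𝓘(ℝ, E) (hf.localInverseAt a) (f v.1) :=
    (inv_contMDiffAt hf hF.deck hc a hsrc).mdifferentiableAt (by simp)
  rw [← tangentMap_comp_at (I := 𝓘(ℝ, E)) (I' := 𝓘(ℝ, E)) (I'' := 𝓘(ℝ, E)) v hd2 hd1]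
  have hφ : φ v.1 ∈ (hf.localInverseAt a).target := by
    rw [h2]; exact hf.self_mem_localInverseAt_target
  have he : (hf.localInverseAt a ∘ f) =ᶠ[𝓝 v.1] φ :=
    transition_eventuallyEq hf h1.continuous h3 hφ
  rw [tangentMap_congr' v he, h4]

theorem ind_local (hf : IsLocalHomeomorph f) (hs : Function.Surjective f)
    (hc : ∀ q : N, ∃ x : E, chartAt E q = hf.localInverseAt x)
    {F : TangentBundle 𝓘(ℝ, E) E → ℝ} (hF : FDeck F f) (a : E) (w : TangentBundle 𝓘(ℝ, E) N)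
    (hw : w.1 ∈ (hf.localInverseAt a).source) :
    ind hf hs F w = F (tangentMap 𝓘(ℝ, E) 𝓘(ℝ, E) (hf.localInverseAt a) w) := by
  have h := ind_induced hf hs hc hF (tangentMap 𝓘(ℝ, E) 𝓘(ℝ, E) (hf.localInverseAt a) w)
  rw [← h]
  congr 1
  have hd1 : MDifferentiableAt 𝓘(ℝ, E) 𝓘(ℝ, E) f (hf.localInverseAt a w.1) :=
    (f_contMDiffAt hf hF.deck hc _).mdifferentiableAt (by simp)
  have hd2 : MDifferentiableAt 𝓘(ℝ, E) 𝓘(ℝ, E) (hf.localInverseAt a) w.1 :=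
    (inv_contMDiffAt hf hF.deck hc a hw).mdifferentiableAt (by simp)
  rw [← tangentMap_comp_at (I := 𝓘(ℝ, E)) (I' := 𝓘(ℝ, E)) (I'' := 𝓘(ℝ, E)) w hd1 hd2]
  have he : (f ∘ hf.localInverseAt a) =ᶠ[𝓝 w.1] id := by
    filter_upwards [(hf.localInverseAt a).open_source.mem_nhds hw] with m hm
    exact hf.apply_localInverseAt_of_mem hm
  rw [tangentMap_congr' w he]
  simp [tangentMap_id]

lemma inv_mfderiv_ne_zero (hf : IsLocalHomeomorph f) 
    (hc : ∀ q : N, ∃ x : E, chartAt E q = hf.localInverseAt x) (hd : Deck f) (a : E) {m : N}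
    (hm : m ∈ (hf.localInverseAt a).source) {v : TangentSpace 𝓘(ℝ, E) m} (hv : v ≠ 0) :
    mfderiv 𝓘(ℝ, E) 𝓘(ℝ, E) (hf.localInverseAt a) m v ≠ 0 := by
  intro h0
  apply hv
  have hd1 : MDifferentiableAt 𝓘(ℝ, E) 𝓘(ℝ, E) f (hf.localInverseAt a m) :=
    (f_contMDiffAt hf hd hc _).mdifferentiableAt (by simp)
  have hd2 : MDifferentiableAt 𝓘(ℝ, E) 𝓘(ℝ, E) (hf.localInverseAt a) m :=
    (inv_contMDiffAt hf hd hc a hm).mdifferentiableAt (by simp)
  have he : (f ∘ hf.localInverseAt a) =ᶠ[𝓝 m] id := by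
    filter_upwards [(hf.localInverseAt a).open_source.mem_nhds hm] with m hm
    exact hf.apply_localInverseAt_of_mem hm
  have h1 := he.mfderiv_eq (I := 𝓘(ℝ, E)) (I' := 𝓘(ℝ, E))
  have h2 := mfderiv_comp (I := 𝓘(ℝ, E)) (I' := 𝓘(ℝ, E)) (I'' := 𝓘(ℝ, E)) m hd1 hd2
  have h3 : (mfderiv 𝓘(ℝ, E) 𝓘(ℝ, E) (f ∘ hf.localInverseAt a) m : E →L[ℝ] E) v = v := by
    have h1' : (mfderiv 𝓘(ℝ, E) 𝓘(ℝ, E) (f ∘ hf.localInverseAt a) m : E →L[ℝ] E) =
      (mfderiv 𝓘(ℝ, E) 𝓘(ℝ, E) (id : N → N) m : E →L[ℝ] E) := h1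
    rw [h1', mfderiv_id]
    rfl
  have h4 : (mfderiv 𝓘(ℝ, E) 𝓘(ℝ, E) (f ∘ hf.localInverseAt a) m : E →L[ℝ] E) v =
      (mfderiv 𝓘(ℝ, E) 𝓘(ℝ, E) f (hf.localInverseAt a m))
        (mfderiv 𝓘(ℝ, E) 𝓘(ℝ, E) (hf.localInverseAt a) m v) := by
    rw [h2]; rfl
  rw [h0, map_zero] at h4
  exact h3.symm.trans h4

theorem ind_finsler (hf : IsLocalHomeomorph f) (hs : Function.Surjective f)
    (hc : ∀ q : N, ∃ x : E, chartAt E q = hf.localInverseAt x)
    {F : TangentBundle 𝓘(ℝ, E) E → ℝ} (hF : FDeck F f) (hFin : IsFinsler F) :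
    IsFinsler (ind hf hs F) := by
  -- the local expression
  have hsm : ∀ (a : E), ContMDiffOn 𝓘(ℝ, E).tangent 𝓘(ℝ, E).tangent ∞
      (tangentMapWithin 𝓘(ℝ, E) 𝓘(ℝ, E) (hf.localInverseAt a) (hf.localInverseAt a).source)
      (Bundle.TotalSpace.proj ⁻¹' (hf.localInverseAt a).source) := by
    intro a
    have h1 : ContMDiffOn 𝓘(ℝ, E) 𝓘(ℝ, E) ∞ (hf.localInverseAt a) (hf.localInverseAt a).source :=
      fun m hm => (inv_contMDiffAt hf hF.deck hc a hm).contMDiffWithinAt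
    exact h1.contMDiffOn_tangentMapWithin (by simp)
      (hf.localInverseAt a).open_source.uniqueMDiffOn
  have hwithin : ∀ (a : E) (w : TangentBundle 𝓘(ℝ, E) N), w.1 ∈ (hf.localInverseAt a).source →
      tangentMapWithin 𝓘(ℝ, E) 𝓘(ℝ, E) (hf.localInverseAt a) (hf.localInverseAt a).source w =
        tangentMap 𝓘(ℝ, E) 𝓘(ℝ, E) (hf.localInverseAt a) w := by
    intro a w hw
    exact tangentMapWithin_eq_tangentMap
      ((hf.localInverseAt a).open_source.uniqueMDiffOn w.1 hw)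
      ((inv_contMDiffAt hf hF.deck hc a hw).mdifferentiableAt (by simp))
  have hopen : ∀ a : E, IsOpen (Bundle.TotalSpace.proj ⁻¹' (hf.localInverseAt a).source :
      Set (TangentBundle 𝓘(ℝ, E) N)) := by
    intro a
    exact (hf.localInverseAt a).open_source.preimage (FiberBundle.continuous_proj E _)
  have hex : ∀ w : TangentBundle 𝓘(ℝ, E) N, ∃ a : E, w.1 ∈ (hf.localInverseAt a).source := by
    intro w
    obtain ⟨a, ha⟩ := hs w.1
    exact ⟨a, by rw [← ha]; exact hf.apply_self_mem_localInverseAt_source⟩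
  have hloc : ∀ (a : E) (w : TangentBundle 𝓘(ℝ, E) N), w.1 ∈ (hf.localInverseAt a).source →
      ind hf hs F =ᶠ[𝓝 w] fun w => F (tangentMapWithin 𝓘(ℝ, E) 𝓘(ℝ, E) (hf.localInverseAt a)
        (hf.localInverseAt a).source w) := by
    intro a w hw
    filter_upwards [(hopen a).mem_nhds hw] with u hu
    rw [ind_local hf hs hc hF a u hu, hwithin a u hu]
  refine ⟨fun v => hFin.nonneg _, ?_, ?_, ?_, ?_⟩
  · rw [continuous_iff_continuousAt]
    intro w
    obtain ⟨a, ha⟩ := hex w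
    have h1 := ((hsm a).continuousOn w ha).continuousAt ((hopen a).mem_nhds ha)
    have h2 : ContinuousAt (fun w => F (tangentMapWithin 𝓘(ℝ, E) 𝓘(ℝ, E) (hf.localInverseAt a)
        (hf.localInverseAt a).source w)) w := hFin.continuous.continuousAt.comp h1
    exact h2.congr (hloc a w ha).symm
  · intro w hw
    obtain ⟨a, ha⟩ := hex w
    have h1 := (hsm a w ha).contMDiffAt ((hopen a).mem_nhds ha)
    have h2 : ContMDiffAt 𝓘(ℝ, E).tangent 𝓘(ℝ, ℝ) ∞ F (tangentMapWithin 𝓘(ℝ, E) 𝓘(ℝ, E)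
        (hf.localInverseAt a) (hf.localInverseAt a).source w) := by
      apply hFin.smooth
      rw [hwithin a w ha]
      exact inv_mfderiv_ne_zero hf hc hF.deck a ha hw
    exact (h2.comp w h1).congr_of_eventuallyEq (hloc a w ha)
  · intro n v c hc0
    show F (tangentMap 𝓘(ℝ, E) 𝓘(ℝ, E) (hf.localInverseAt (Function.surjInv hs n)) ⟨n, c • v⟩) =
      c * F (tangentMap 𝓘(ℝ, E) 𝓘(ℝ, E) (hf.localInverseAt (Function.surjInv hs n)) ⟨n, v⟩)
    have := hFin.homog (hf.localInverseAt (Function.surjInv hs n) n)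
      (mfderiv 𝓘(ℝ, E) 𝓘(ℝ, E) (hf.localInverseAt (Function.surjInv hs n)) n v) c hc0
    simp only [tangentMap, map_smul]
    exact this
  · intro n v w hv hw
    have hn : n ∈ (hf.localInverseAt (Function.surjInv hs n)).source := by
      have : f (Function.surjInv hs n) = n := Function.surjInv_eq hs n
      have h := hf.apply_self_mem_localInverseAt_source (x := Function.surjInv hs n)
      rwa [this] at h
    have h1 := inv_mfderiv_ne_zero hf hc hF.deck _ hn hv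
    have h2 := inv_mfderiv_ne_zero hf hc hF.deck _ hn hw
    have h3 := hFin.convex _ _ _ h1 h2
    convert h3 using 3
    simp only [ind, tangentMap, map_add, map_smul]

end Pool.Agent.W544.HC
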