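import Mathlib

/-! Finsler manifolds, their isometries, distances and quotients. -/

set_option autoImplicit false

open scoped Manifold ContDiff Topology
open Set MeasureTheory

noncomputable section

namespace Pool.Agent.W544.HC

variable {E : Type} [NormedAddCommGroup E] [NormedSpace ℝ E]
  {M : Type} [TopologicalSpace M] [ChartedSpace E M] [IsManifold 𝓘(ℝ, E) ∞ M]
  {N : Type} [TopologicalSpace N] [ChartedSpace E N] [IsManifold 𝓘(ℝ, E) ∞ N]

/-- `F : TM → [0,∞)` is a Finsler function on the smooth manifold `M` (not necessarily reversible):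
it is continuous, smooth off the zero section, satisfies `F(λ v) = λ F(v)` for `λ > 0`, and is
strongly convex: off the zero section the Hessian of `F²` along the fibre is positive definite. -/
structure IsFinsler (F : TangentBundle 𝓘(ℝ, E) M → ℝ) : Prop where
  nonneg : ∀ v, 0 ≤ F v
  continuous : Continuous F
  smooth : ∀ v : TangentBundle 𝓘(ℝ, E) M, v.2 ≠ 0 →
    ContMDiffAt 𝓘(ℝ, E).tangent 𝓘(ℝ, ℝ) ∞ F v
  homog : ∀ (x : M) (v : TangentSpace 𝓘(ℝ, E) x) (c : ℝ), 0 < c → F ⟨x, c • v⟩ = c * F ⟨x, v⟩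
  convex : ∀ (x : M) (v w : TangentSpace 𝓘(ℝ, E) x), v ≠ 0 → w ≠ 0 →
    0 < iteratedDeriv 2 (fun t : ℝ => F ⟨x, v + t • w⟩ ^ 2) 0

/-- `F(-v) = F(v)`. -/
def IsReversible (F : TangentBundle 𝓘(ℝ, E) M → ℝ) : Prop :=
  ∀ (x : M) (v : TangentSpace 𝓘(ℝ, E) x), F ⟨x, -v⟩ = F ⟨x, v⟩

/-- `(M, F)` is homogeneous: the diffeomorphisms of `M` that preserve `F` act transitively. -/
def IsHomogeneous (F : TangentBundle 𝓘(ℝ, E) M → ℝ) : Prop :=
  ∀ x y : M, ∃ Φ : Diffeomorph 𝓘(ℝ, E) 𝓘(ℝ, E) M M ∞,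
    (∀ v : TangentBundle 𝓘(ℝ, E) M, F (tangentMap 𝓘(ℝ, E) 𝓘(ℝ, E) Φ v) = F v) ∧ Φ x = y

/-- The `F`-length of a smooth curve `c` on `[0,1]`. -/
def length (F : TangentBundle 𝓘(ℝ, E) M → ℝ) (c : ℝ → M) : ℝ :=
  ∫ t in (0 : ℝ)..1, F ⟨c t, mfderivWithin 𝓘(ℝ, ℝ) 𝓘(ℝ, E) c (Icc 0 1) t (1 : ℝ)⟩

/-- `CurveOfLength F x y ℓ`: there is a piecewise smooth curve from `x` to `y` of `F`-length `ℓ`. -/
inductive CurveOfLength (F : TangentBundle 𝓘(ℝ, E) M → ℝ) : M → M → ℝ → Prop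
  | smooth (c : ℝ → M) (hc : ContMDiffOn 𝓘(ℝ, ℝ) 𝓘(ℝ, E) ∞ c (Icc 0 1)) :
      CurveOfLength F (c 0) (c 1) (length F c)
  | append {x y z : M} {a b : ℝ} (h₁ : CurveOfLength F x y a) (h₂ : CurveOfLength F y z b) :
      CurveOfLength F x z (a + b)

/-- The distance `ρ(x,y)` of `(M,F)`: the infimum of the `F`-lengths of the piecewise smooth curves
from `x` to `y`. -/
def rho (F : TangentBundle 𝓘(ℝ, E) M → ℝ) (x y : M) : ℝ :=
  sInf {ℓ : ℝ | CurveOfLength F x y ℓ}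

/-- The group `Γ` acts on `M` by isometries of `(M,F)`, freely and properly discontinuously, that is,
it is the group of a Finsler covering `(M,F) → Γ\(M,F)`. -/
structure IsCoveringGroup (Γ : Type) [Group Γ] [MulAction Γ M]
    (F : TangentBundle 𝓘(ℝ, E) M → ℝ) : Prop where
  smooth : ∀ g : Γ, ContMDiff 𝓘(ℝ, E) 𝓘(ℝ, E) ∞ (fun x : M => g • x)
  isometry : ∀ (g : Γ) (v : TangentBundle 𝓘(ℝ, E) M),
    F (tangentMap 𝓘(ℝ, E) 𝓘(ℝ, E) (fun x : M => g • x) v) = F v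
  free : ∀ (g : Γ) (x : M), g • x = x → g = 1
  proper : ProperlyDiscontinuousSMul Γ M

/-- Every element of `Γ` has constant displacement. -/
def HasConstantDisplacements (Γ : Type) [Group Γ] [MulAction Γ M]
    (F : TangentBundle 𝓘(ℝ, E) M → ℝ) : Prop :=
  ∀ g : Γ, ∃ d : ℝ, ∀ x : M, rho F x (g • x) = d

/-- `(N,F')` is the quotient `Γ\(M,F)`, with projection `p`: the map `p : M → N` is a surjective
local diffeomorphism whose fibres are the orbits of `Γ`, and `F' ∘ dp = F`. -/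
structure IsQuotient (Γ : Type) [Group Γ] [MulAction Γ M] (F : TangentBundle 𝓘(ℝ, E) M → ℝ)
    (F' : TangentBundle 𝓘(ℝ, E) N → ℝ) (p : M → N) : Prop where
  surjective : Function.Surjective p
  fibre : ∀ x y : M, p x = p y ↔ ∃ g : Γ, g • x = y
  localDiffeo : IsLocalDiffeomorph 𝓘(ℝ, E) 𝓘(ℝ, E) ∞ p
  induced : ∀ v : TangentBundle 𝓘(ℝ, E) M, F' (tangentMap 𝓘(ℝ, E) 𝓘(ℝ, E) p v) = F v

end Pool.Agent.W544.HC
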