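import Pool.Agent.W544.HC.Model

/-! The group `ℤ` of translations and its displacements. -/

set_option autoImplicit false

open scoped Manifold ContDiff Topology
open Set MeasureTheory Real

noncomputable section

namespace Pool.Agent.W544.HC

/-- the translation vector -/
def tv (k : ℤ) : E3 := ((k : ℝ), 0, 0)

lemma tv_add (k l : ℤ) : tv (k + l) = tv k + tv l := by
  ext <;> simp [tv]

lemma tv_zero : tv 0 = 0 := by
  ext <;> simp [tv]

/-- `ℤ` acts by translations -/
@[reducible] def act : MulAction (Multiplicative ℤ) E3 where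
  smul g x := x + tv g.toAdd
  one_smul x := by
    show x + tv 0 = x
    rw [tv_zero, add_zero]
  mul_smul g h x := by
    show x + tv (g.toAdd + h.toAdd) = (x + tv h.toAdd) + tv g.toAdd
    rw [tv_add]; abel

attribute [local instance] act

lemma smul_def (g : Multiplicative ℤ) (x : E3) : g • x = x + tv g.toAdd := rfl

lemma act_covering : IsCoveringGroup (Multiplicative ℤ) FF where
  smooth g := by
    rw [contMDiff_iff_contDiff]
    exact contDiff_id.add contDiff_const
  isometry g v := by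
    have h1 : HasFDerivAt (fun x : E3 => g • x) (ContinuousLinearMap.id ℝ E3) v.1 :=
      (hasFDerivAt_id v.1).add_const (tv g.toAdd)
    have h2 : mfderiv 𝓘(ℝ, E3) 𝓘(ℝ, E3) (fun x : E3 => g • x) v.1 =
        ContinuousLinearMap.id ℝ E3 := by
      rw [mfderiv_eq_fderiv]; exact h1.fderiv
    show G (v.1 + tv g.toAdd, mfderiv 𝓘(ℝ, E3) 𝓘(ℝ, E3) (fun x : E3 => g • x) v.1 v.2) =
      G (v.1, v.2)
    rw [h2]
    unfold G
    simp only
    have h3 : ((v.1 : E3) + tv g.toAdd).2.2 = (v.1 : E3).2.2 := by simp [tv]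
    rw [h3]
    rfl
  free g x h := by
    rw [smul_def] at h
    have h1 := congrArg Prod.fst h
    simp [tv] at h1
    have : g.toAdd = 0 := h1
    exact Multiplicative.toAdd.injective this
  proper := by
    constructor
    intro K L hK hL
    obtain ⟨R, hR⟩ := hK.isBounded.exists_norm_le
    obtain ⟨R', hR'⟩ := hL.isBounded.exists_norm_le
    have hfin : (Set.Icc (-⌈R + R'⌉) ⌈R + R'⌉ : Set ℤ).Finite := Set.finite_Icc _ _
    have : Set.Finite ((Multiplicative.toAdd : Multiplicative ℤ → ℤ) ⁻¹'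
        (Set.Icc (-⌈R + R'⌉) ⌈R + R'⌉ : Set ℤ)) :=
      hfin.preimage (Multiplicative.toAdd.injective.injOn)
    refine this.subset ?_
    rintro g ⟨y, ⟨x, hx, rfl⟩, hy⟩
    have h1 := hR x hx
    have h2 := hR' _ hy
    have h3 : |x.1| ≤ R := le_trans (by rw [← Real.norm_eq_abs]; exact norm_fst_le x) h1
    have h4 : |(g • x).1| ≤ R' := le_trans (by rw [← Real.norm_eq_abs]; exact norm_fst_le _) h2
    have h5 : (g • x).1 = x.1 + (g.toAdd : ℝ) := by simp [smul_def, tv]
    rw [h5] at h4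
    have h6 := abs_le.1 h3
    have h7 := abs_le.1 h4
    have h8 : ((g.toAdd : ℤ) : ℝ) ≤ R + R' := by linarith
    have h9 : -(R + R') ≤ ((g.toAdd : ℤ) : ℝ) := by linarith
    simp only [mem_preimage, mem_Icc]
    constructor
    · have : (-(⌈R + R'⌉ : ℤ) : ℝ) ≤ ((g.toAdd : ℤ) : ℝ) := by
        have := Int.le_ceil (R + R')
        linarith
      exact_mod_cast this
    · have : ((g.toAdd : ℤ) : ℝ) ≤ ((⌈R + R'⌉ : ℤ) : ℝ) := le_trans h8 (Int.le_ceil _)
      exact_mod_cast this

lemma G_ge_fst (p : E3 × E3) : |p.2.1| ≤ G p := by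
  refine le_trans ?_ (G_ge p)
  rw [← Real.sqrt_sq_eq_abs]
  apply Real.sqrt_le_sqrt
  nlinarith [sq_nonneg p.2.2.1, sq_nonneg p.2.2.2]

lemma length_eq (c : ℝ → E3) : length FF c =
    ∫ t in (0 : ℝ)..1, G (c t, derivWithin c (Icc 0 1) t) := by
  unfold length
  congr 1
  funext t
  rw [mfderivWithin_eq_fderivWithin]
  rfl

lemma length_ge {c : ℝ → E3} (hc : ContDiffOn ℝ ∞ c (Icc 0 1)) :
    |(c 1).1 - (c 0).1| ≤ length FF c := by
  rw [length_eq]
  have hc1 : ContDiffOn ℝ 1 (fun t => (c t).1) (Icc 0 1) :=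
    (hc.fst).of_le (by exact_mod_cast le_top)
  have h1 : ∫ t in (0 : ℝ)..1, derivWithin (fun t => (c t).1) (Icc 0 1) t = (c 1).1 - (c 0).1 :=
    intervalIntegral.integral_derivWithin_Icc_of_contDiffOn_Icc hc1 zero_le_one
  have hu : UniqueDiffOn ℝ (Icc (0 : ℝ) 1) := uniqueDiffOn_Icc zero_lt_one
  have hcd : ContinuousOn (derivWithin c (Icc 0 1)) (Icc 0 1) :=
    hc.continuousOn_derivWithin hu (by exact_mod_cast le_top)
  have hfst : ∀ t ∈ Icc (0 : ℝ) 1, derivWithin (fun t => (c t).1) (Icc 0 1) t =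
      (derivWithin c (Icc 0 1) t).1 := by
    intro t ht
    have hd : HasDerivWithinAt c (derivWithin c (Icc 0 1) t) (Icc 0 1) t :=
      ((hc.differentiableOn (by simp)) t ht).hasDerivWithinAt
    have hd1 : HasDerivWithinAt (fun t => (c t).1) (derivWithin c (Icc 0 1) t).1 (Icc 0 1) t := by
      have := (ContinuousLinearMap.fst ℝ ℝ (ℝ × ℝ)).hasFDerivAt.comp_hasDerivWithinAt t hd
      exact this
    exact hd1.derivWithin (hu t ht)
  have hGc : ContinuousOn (fun t => G (c t, derivWithin c (Icc 0 1) t)) (Icc 0 1) :=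
    G_continuous.comp_continuousOn (hc.continuousOn.prodMk hcd)
  rw [← h1]
  have hi : IntervalIntegrable (fun t => G (c t, derivWithin c (Icc 0 1) t)) volume 0 1 := by
    apply ContinuousOn.intervalIntegrable
    rwa [uIcc_of_le zero_le_one]
  calc |∫ t in (0 : ℝ)..1, derivWithin (fun t => (c t).1) (Icc 0 1) t|
      = ‖∫ t in (0 : ℝ)..1, derivWithin (fun t => (c t).1) (Icc 0 1) t‖ := (Real.norm_eq_abs _).symm
    _ ≤ ∫ t in (0 : ℝ)..1, G (c t, derivWithin c (Icc 0 1) t) := by
        apply intervalIntegral.norm_integral_le_of_norm_le zero_le_one _ hi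
        filter_upwards with t ht
        have ht' : t ∈ Icc (0 : ℝ) 1 := ⟨ht.1.le, ht.2⟩
        rw [hfst t ht', Real.norm_eq_abs]
        exact G_ge_fst (c t, derivWithin c (Icc 0 1) t)

lemma curve_ge {x y : E3} {ℓ : ℝ} (h : CurveOfLength FF x y ℓ) : |y.1 - x.1| ≤ ℓ := by
  induction h with
  | smooth c hc => exact length_ge (contMDiffOn_iff_contDiffOn.1 hc)
  | append _ _ h1 h2 =>
    rename_i x y z a b _ _
    calc |z.1 - x.1| = |(z.1 - y.1) + (y.1 - x.1)| := by ring_nf
      _ ≤ |z.1 - y.1| + |y.1 - x.1| := abs_add_le _ _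
      _ ≤ a + b := by linarith

lemma G_tv (x : E3) (k : ℤ) : G (x, tv k) = |(k : ℝ)| := by
  unfold G
  have h : P (fr x.2.2 (tv k)) = (k : ℝ) ^ 2 := by
    have : fr x.2.2 (tv k) = (cos x.2.2 * k, -sin x.2.2 * k, 0) := by ext <;> simp [fr, tv]
    rw [this, P_of_snd]
    have := sin_sq_add_cos_sq x.2.2
    linear_combination ((k : ℝ) ^ 2) * this
  simp only [h]
  rw [Real.sqrt_sq_eq_abs]

lemma curve_seg (x : E3) (k : ℤ) : CurveOfLength FF x (x + tv k) |(k : ℝ)| := by
  have hc : ContDiff ℝ ∞ (fun t : ℝ => x + t • tv k) := by fun_prop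
  have h := CurveOfLength.smooth (F := FF) (fun t : ℝ => x + t • tv k)
    (contMDiffOn_iff_contDiffOn.2 hc.contDiffOn)
  have e0 : x + (0 : ℝ) • tv k = x := by simp
  have e1 : x + (1 : ℝ) • tv k = x + tv k := by simp
  simp only [e0, e1] at h
  have hl : length FF (fun t : ℝ => x + t • tv k) = |(k : ℝ)| := by
    rw [length_eq]
    have : ∀ t ∈ uIcc (0 : ℝ) 1, G (x + t • tv k, derivWithin (fun t : ℝ => x + t • tv k) (Icc 0 1) t) =
        |(k : ℝ)| := by
      intro t ht
      rw [uIcc_of_le zero_le_one] at ht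
      have hd : HasDerivAt (fun t : ℝ => x + t • tv k) (tv k) t := by
        simpa using ((hasDerivAt_id t).smul_const (tv k)).const_add x
      rw [hd.hasDerivWithinAt.derivWithin (uniqueDiffOn_Icc zero_lt_one t ht), G_tv]
    rw [intervalIntegral.integral_congr this]
    simp
  rw [hl] at h
  exact h

lemma rho_tv (x : E3) (k : ℤ) : rho FF x (x + tv k) = |(k : ℝ)| := by
  apply IsLeast.csInf_eq
  refine ⟨curve_seg x k, ?_⟩
  intro ℓ hℓ
  have := curve_ge hℓ
  have e : (x + tv k).1 - x.1 = (k : ℝ) := by simp [tv]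
  rwa [e] at this

lemma act_displacements : HasConstantDisplacements (Multiplicative ℤ) FF := by
  intro g
  exact ⟨|((g.toAdd : ℤ) : ℝ)|, fun x => rho_tv x g.toAdd⟩

end Pool.Agent.W544.HC
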