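import Pool.Agent.W544.HC.Phi

/-! Linear isometries of the Minkowski norm `φ` preserve the second axis. -/

set_option autoImplicit false

open scoped ContDiff Topology
open Set

noncomputable section

namespace Pool.Agent.W544.HC

/-- three-dimensional space -/
abbrev E3 : Type := ℝ × ℝ × ℝ

/-- the square of the norm, on vectors -/
def P (v : E3) : ℝ := phi v.1 v.2.1 v.2.2

/-- parallelogram defect -/
def D (v w : E3) : ℝ := P (v + w) + P (v - w) - 2 * P v - 2 * P w

lemma P_of_fst {b c : ℝ} : P (0, b, c) = b ^ 2 + c ^ 2 := by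
  simp [P, phi]

lemma P_of_snd {a b : ℝ} : P (a, b, 0) = a ^ 2 + b ^ 2 := by
  simp [P, phi]

lemma P_def (a b c : ℝ) : P (a, b, c) =
    a ^ 2 + b ^ 2 + c ^ 2 + (1 / 10) * (a ^ 2 * c ^ 2 / (a ^ 2 + b ^ 2 + c ^ 2)) := rfl

lemma P_pos {v : E3} (hv : v ≠ 0) : 0 < P v := by
  apply phi_pos
  rintro ⟨h1, h2, h3⟩
  exact hv (Prod.ext h1 (Prod.ext h2 h3))

/-- a plane on which the parallelogram law holds -/
lemma plane {u v : E3} (hind : ∀ s t : ℝ, s • u + t • v = 0 → s = 0 ∧ t = 0)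
    (hD : ∀ s t s' t' : ℝ, D (s • u + t • v) (s' • u + t' • v) = 0) :
    (u.1 = 0 ∧ v.1 = 0) ∨ (u.2.2 = 0 ∧ v.2.2 = 0) := by
  obtain ⟨u1, u2, u3⟩ := u
  obtain ⟨v1, v2, v3⟩ := v
  simp only
  by_contra hcon
  push Not at hcon
  obtain ⟨hx, hz⟩ := hcon
  have hx' : ¬ (u1 = 0 ∧ v1 = 0) := fun h => hx h.1 h.2
  have hz' : ¬ (u3 = 0 ∧ v3 = 0) := fun h => hz h.1 h.2
  set δ : ℝ := v3 * u1 - u3 * v1 with hδ
  by_cases h0 : δ = 0
  · -- the second axis lies in the plane
    set β : ℝ := v1 * u2 - u1 * v2 with hβ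
    have hn : v1 • ((u1, u2, u3) : E3) + (-u1) • ((v1, v2, v3) : E3) = (0, β, 0) := by
      ext
      · simp; ring
      · simp [hβ]; ring
      · simp only [Prod.snd_add, Prod.smul_snd, smul_eq_mul]
        have : v1 * u3 + -u1 * v3 = - δ := by rw [hδ]; ring
        rw [this, h0, neg_zero]
    have hβ0 : β ≠ 0 := by
      intro h
      rw [h] at hn
      have := hind _ _ hn
      exact hx' ⟨by linarith [this.2], this.1⟩
    -- a vector `(a, 0, c)` of the plane with `a c ≠ 0`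
    have key : ∃ a c s t : ℝ, a ≠ 0 ∧ c ≠ 0 ∧
        s • ((u1, u2, u3) : E3) + t • ((v1, v2, v3) : E3) = (a, 0, c) := by
      have hδ' : v3 * u1 = u3 * v1 := by linarith
      by_cases hu : u1 = 0
      · have hv : v1 ≠ 0 := fun h => hx' ⟨hu, h⟩
        have hu3 : u3 = 0 := by
          rw [hu, mul_zero] at hδ'
          rcases mul_eq_zero.1 hδ'.symm with h | h
          · exact h
          · exact absurd h hv
        have hv3 : v3 ≠ 0 := fun h => hz' ⟨hu3, h⟩
        refine ⟨v1, v3, -(v2 / β) * v1, 1 + (v2 / β) * u1, hv, hv3, ?_⟩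
        have e1 : (-(v2 / β) * v1) • ((u1, u2, u3) : E3) + (1 + (v2 / β) * u1) • ((v1, v2, v3) : E3)
          = ((v1, v2, v3) : E3) - (v2 / β) • (v1 • ((u1, u2, u3) : E3) + (-u1) • ((v1, v2, v3) : E3)) := by
          ext <;> simp <;> ring
        rw [e1, hn]
        ext
        · simp
        · simp; field_simp; ring
        · simp
      · have hu3 : u3 ≠ 0 := by
          intro h
          rw [h, zero_mul] at hδ'
          rcases mul_eq_zero.1 hδ' with h' | h'
          · exact hz' ⟨h, h'⟩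
          · exact hu h'
        refine ⟨u1, u3, 1 - (u2 / β) * v1, (u2 / β) * u1, hu, hu3, ?_⟩
        have e1 : (1 - (u2 / β) * v1) • ((u1, u2, u3) : E3) + ((u2 / β) * u1) • ((v1, v2, v3) : E3)
          = ((u1, u2, u3) : E3) - (u2 / β) • (v1 • ((u1, u2, u3) : E3) + (-u1) • ((v1, v2, v3) : E3)) := by
          ext <;> simp <;> ring
        rw [e1, hn]
        ext
        · simp
        · simp; field_simp; ring
        · simp
    obtain ⟨a, c, s, t, ha, hc, hst⟩ := key
    have h1 := hD (β⁻¹ * v1) (β⁻¹ * (-u1)) s t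
    rw [hst] at h1
    have e2 : (β⁻¹ * v1) • ((u1, u2, u3) : E3) + (β⁻¹ * (-u1)) • ((v1, v2, v3) : E3) = (0, 1, 0) := by
      rw [mul_smul, mul_smul, ← smul_add, hn]
      ext
      · simp
      · simp [hβ0]
      · simp
    rw [e2] at h1
    have ea : 0 < a ^ 2 := by positivity
    have ec : 0 < c ^ 2 := by positivity
    have h2 : D (0, 1, 0) (a, 0, c) = (1 / 5) * (a ^ 2 * c ^ 2) *
        (1 / (a ^ 2 + 1 + c ^ 2) - 1 / (a ^ 2 + c ^ 2)) := by
      unfold D
      have e3 : ((0, 1, 0) : E3) + (a, 0, c) = (a, 1, c) := by ext <;> simp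
      have e4 : ((0, 1, 0) : E3) - (a, 0, c) = (-a, 1, -c) := by ext <;> simp
      rw [e3, e4, P_def, P_def, P_def, P_def]
      have g1 : a ^ 2 + 1 + c ^ 2 ≠ 0 := by positivity
      have g2 : a ^ 2 + c ^ 2 ≠ 0 := by positivity
      simp only [neg_sq, one_pow, ne_eq, OfNat.ofNat_ne_zero, not_false_eq_true, zero_pow,
        add_zero, zero_add]
      field_simp
      ring
    rw [h2] at h1
    have h3 : 1 / (a ^ 2 + 1 + c ^ 2) < 1 / (a ^ 2 + c ^ 2) :=
      one_div_lt_one_div_of_lt (by positivity) (by linarith)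
    have h4 : 0 < (1 / 5 : ℝ) * (a ^ 2 * c ^ 2) := by positivity
    have h5 : (1 / 5 : ℝ) * (a ^ 2 * c ^ 2) * (1 / (a ^ 2 + 1 + c ^ 2) - 1 / (a ^ 2 + c ^ 2)) < 0 :=
      mul_neg_of_pos_of_neg h4 (by linarith)
    linarith
  · -- two vectors of the plane, in the two special planes
    set b1 : ℝ := v1 * u2 - u1 * v2 with hb1
    set b3 : ℝ := v3 * u2 - u3 * v2 with hb3
    have h1 := hD v1 (-u1) v3 (-u3)
    have e1 : v1 • ((u1, u2, u3) : E3) + (-u1) • ((v1, v2, v3) : E3) = (0, b1, -δ) := by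
      ext
      · simp; ring
      · simp [hb1]; ring
      · simp [hδ]; ring
    have e2 : v3 • ((u1, u2, u3) : E3) + (-u3) • ((v1, v2, v3) : E3) = (δ, b3, 0) := by
      ext
      · simp [hδ]; ring
      · simp [hb3]; ring
      · simp; ring
    rw [e1, e2] at h1
    have ed : 0 < δ ^ 2 := by positivity
    have h2 : D (0, b1, -δ) (δ, b3, 0) = (1 / 10) * (δ ^ 2 * δ ^ 2) *
        (1 / (δ ^ 2 + (b1 + b3) ^ 2 + δ ^ 2) + 1 / (δ ^ 2 + (b1 - b3) ^ 2 + δ ^ 2)) := by
      unfold D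
      have e3 : ((0, b1, -δ) : E3) + (δ, b3, 0) = (δ, b1 + b3, -δ) := by ext <;> simp
      have e4 : ((0, b1, -δ) : E3) - (δ, b3, 0) = (-δ, b1 - b3, -δ) := by ext <;> simp
      rw [e3, e4, P_def, P_def, P_def, P_def]
      have g1 : δ ^ 2 + (b1 + b3) ^ 2 + δ ^ 2 ≠ 0 := by positivity
      have g2 : δ ^ 2 + (b1 - b3) ^ 2 + δ ^ 2 ≠ 0 := by positivity
      simp only [neg_sq, ne_eq, OfNat.ofNat_ne_zero, not_false_eq_true, zero_pow,
        add_zero, zero_add, zero_mul, mul_zero, zero_div]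
      field_simp
      ring
    rw [h2] at h1
    have h3 : 0 < (1 / 10) * (δ ^ 2 * δ ^ 2) *
        (1 / (δ ^ 2 + (b1 + b3) ^ 2 + δ ^ 2) + 1 / (δ ^ 2 + (b1 - b3) ^ 2 + δ ^ 2)) := by
      positivity
    linarith

/-- A linear map preserving `φ` maps the second basis vector to itself or to its opposite. -/
theorem lin_axis (B : E3 →ₗ[ℝ] E3) (hB : ∀ v, P (B v) = P v) :
    B (0, 1, 0) = (0, 1, 0) ∨ B (0, 1, 0) = (0, -1, 0) := by
  have hinj : Function.Injective B := by
    rw [← LinearMap.ker_eq_bot, LinearMap.ker_eq_bot']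
    intro v hv
    by_contra hne
    have := P_pos hne
    rw [← hB, hv] at this
    simp [P, phi] at this
  have hsurj : Function.Surjective B := LinearMap.injective_iff_surjective.1 hinj
  have hDD : ∀ v w, D (B v) (B w) = D v w := by
    intro v w
    unfold D
    rw [← map_add, ← map_sub, hB, hB, hB, hB]
  set u1 := B (1, 0, 0) with hu1
  set u2 := B (0, 1, 0) with hu2
  set u3 := B (0, 0, 1) with hu3
  have hdec : ∀ v : E3, B v = v.1 • u1 + v.2.1 • u2 + v.2.2 • u3 := by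
    intro v
    have : v = v.1 • ((1, 0, 0) : E3) + v.2.1 • ((0, 1, 0) : E3) + v.2.2 • ((0, 0, 1) : E3) := by
      ext <;> simp
    conv_lhs => rw [this]
    rw [map_add, map_add, map_smul, map_smul, map_smul]
  have A1 : (u1.1 = 0 ∧ u2.1 = 0) ∨ (u1.2.2 = 0 ∧ u2.2.2 = 0) := by
    apply plane
    · intro s t h
      have h1 : B (s, t, 0) = 0 := by rw [hdec]; simpa using h
      have h2 : ((s, t, 0) : E3) = 0 := hinj (by rw [h1, map_zero])
      rw [Prod.ext_iff, Prod.ext_iff] at h2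
      exact ⟨h2.1, h2.2.1⟩
    · intro s t s' t'
      have e : ∀ s t : ℝ, s • u1 + t • u2 = B (s, t, 0) := by intro s t; rw [hdec]; simp
      rw [e, e, hDD]
      unfold D
      have e3 : ((s, t, 0) : E3) + (s', t', 0) = (s + s', t + t', 0) := by ext <;> simp
      have e4 : ((s, t, 0) : E3) - (s', t', 0) = (s - s', t - t', 0) := by ext <;> simp
      rw [e3, e4, P_of_snd, P_of_snd, P_of_snd, P_of_snd]
      ring
  have A2 : (u2.1 = 0 ∧ u3.1 = 0) ∨ (u2.2.2 = 0 ∧ u3.2.2 = 0) := by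
    apply plane
    · intro s t h
      have h1 : B (0, s, t) = 0 := by rw [hdec]; simpa using h
      have h2 : ((0, s, t) : E3) = 0 := hinj (by rw [h1, map_zero])
      rw [Prod.ext_iff, Prod.ext_iff] at h2
      exact ⟨h2.2.1, h2.2.2⟩
    · intro s t s' t'
      have e : ∀ s t : ℝ, s • u2 + t • u3 = B (0, s, t) := by intro s t; rw [hdec]; simp
      rw [e, e, hDD]
      unfold D
      have e3 : ((0, s, t) : E3) + (0, s', t') = (0, s + s', t + t') := by ext <;> simp
      have e4 : ((0, s, t) : E3) - (0, s', t') = (0, s - s', t - t') := by ext <;> simp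
      rw [e3, e4, P_of_fst, P_of_fst, P_of_fst, P_of_fst]
      ring
  have hb : u2.1 = 0 ∧ u2.2.2 = 0 := by
    rcases A1 with ⟨a1, a2⟩ | ⟨a1, a2⟩ <;> rcases A2 with ⟨b1, b2⟩ | ⟨b1, b2⟩
    · exfalso
      obtain ⟨v, hv⟩ := hsurj (1, 0, 0)
      rw [hdec] at hv
      have := congrArg Prod.fst hv
      simp [a1, a2, b2] at this
    · exact ⟨a2, b1⟩
    · exact ⟨b1, a2⟩
    · exfalso
      obtain ⟨v, hv⟩ := hsurj (0, 0, 1)
      rw [hdec] at hv
      have := congrArg (fun x : E3 => x.2.2) hv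
      simp [a1, a2, b2] at this
  have hP : P u2 = 1 := by rw [hu2, hB]; simp [P, phi]
  have hu2' : u2 = (0, u2.2.1, 0) := Prod.ext hb.1 (Prod.ext rfl hb.2)
  rw [hu2', P_of_fst] at hP
  have hsq : u2.2.1 ^ 2 = 1 := by linarith
  have hfac : (u2.2.1 - 1) * (u2.2.1 + 1) = 0 := by linear_combination hsq
  rcases mul_eq_zero.1 hfac with h | h
  · left; rw [hu2', show u2.2.1 = 1 by linarith]
  · right; rw [hu2', show u2.2.1 = -1 by linarith]

end Pool.Agent.W544.HC
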