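import Pool.Agent.W544.HC.Defs
import Pool.Agent.W544.HC.Lin

/-! The homogeneous Finsler manifold `(ℝ³, F)`. -/

set_option autoImplicit false

open scoped Manifold ContDiff Topology
open Set MeasureTheory Real

noncomputable section

namespace Pool.Agent.W544.HC

/-- components of a vector in the invariant frame -/
def fr (s : ℝ) (v : E3) : E3 :=
  (cos s * v.1 + sin s * v.2.1, -sin s * v.1 + cos s * v.2.1, v.2.2)

lemma fr_norm (s : ℝ) (v : E3) : (fr s v).1 ^ 2 + (fr s v).2.1 ^ 2 + (fr s v).2.2 ^ 2 =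
    v.1 ^ 2 + v.2.1 ^ 2 + v.2.2 ^ 2 := by
  simp only [fr]
  have := sin_sq_add_cos_sq s
  linear_combination (v.1 ^ 2 + v.2.1 ^ 2) * this

lemma fr_add (s : ℝ) (v w : E3) : fr s (v + w) = fr s v + fr s w := by
  ext <;> simp [fr] <;> ring

lemma fr_smul (s c : ℝ) (v : E3) : fr s (c • v) = c • fr s v := by
  ext <;> simp [fr] <;> ring

/-- inverse of `fr` -/
def fr' (s : ℝ) (v : E3) : E3 :=
  (cos s * v.1 - sin s * v.2.1, sin s * v.1 + cos s * v.2.1, v.2.2)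

lemma fr_fr' (s : ℝ) (v : E3) : fr s (fr' s v) = v := by
  have := sin_sq_add_cos_sq s
  ext
  · simp only [fr, fr']; linear_combination v.1 * this
  · simp only [fr, fr']; linear_combination v.2.1 * this
  · simp only [fr, fr']

lemma fr'_fr (s : ℝ) (v : E3) : fr' s (fr s v) = v := by
  have := sin_sq_add_cos_sq s
  ext
  · simp only [fr, fr']; linear_combination v.1 * this
  · simp only [fr, fr']; linear_combination v.2.1 * this
  · simp only [fr, fr']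

lemma fr_ne_zero {s : ℝ} {v : E3} (hv : v ≠ 0) : fr s v ≠ 0 := by
  intro h
  apply hv
  rw [← fr'_fr s v, h]
  ext <;> simp [fr']

/-- The Finsler function, as a function of the point and the vector. -/
def G (p : E3 × E3) : ℝ := √(P (fr p.1.2.2 p.2))

/-- The Finsler function. -/
def FF (v : TangentBundle 𝓘(ℝ, E3) E3) : ℝ := G (v.1, v.2)

lemma P_nonneg (v : E3) : 0 ≤ P v := phi_nonneg _ _ _

lemma P_smul (c : ℝ) (v : E3) : P (c • v) = c ^ 2 * P v := by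
  simp only [P, Prod.smul_fst, Prod.smul_snd, smul_eq_mul]
  exact phi_smul _ _ _ _

lemma G_sq (p : E3 × E3) : G p ^ 2 = P (fr p.1.2.2 p.2) := Real.sq_sqrt (P_nonneg _)

lemma G_contDiffAt (p : E3 × E3) (hp : p.2 ≠ 0) : ContDiffAt ℝ ∞ G p := by
  have h1 : P (fr p.1.2.2 p.2) ≠ 0 := (P_pos (fr_ne_zero hp)).ne'
  have h2 : (fr p.1.2.2 p.2).1 ^ 2 + (fr p.1.2.2 p.2).2.1 ^ 2 + (fr p.1.2.2 p.2).2.2 ^ 2 ≠ 0 := by
    have : 0 < (fr p.1.2.2 p.2).1 ^ 2 + (fr p.1.2.2 p.2).2.1 ^ 2 + (fr p.1.2.2 p.2).2.2 ^ 2 := by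
      apply sum_sq_pos
      rintro ⟨a, b, c⟩
      exact fr_ne_zero hp (Prod.ext a (Prod.ext b c))
    exact this.ne'
  refine ContDiffAt.sqrt ?_ h1
  unfold P phi
  have hfr : ContDiff ℝ ∞ (fun p : E3 × E3 => fr p.1.2.2 p.2) := by
    unfold fr
    fun_prop
  have k1 : ContDiff ℝ ∞ (fun p : E3 × E3 => (fr p.1.2.2 p.2).1) := hfr.fst
  have k2 : ContDiff ℝ ∞ (fun p : E3 × E3 => (fr p.1.2.2 p.2).2.1) := hfr.snd.fst
  have k3 : ContDiff ℝ ∞ (fun p : E3 × E3 => (fr p.1.2.2 p.2).2.2) := hfr.snd.snd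
  have k4 : ContDiff ℝ ∞ (fun p : E3 × E3 =>
      (fr p.1.2.2 p.2).1 ^ 2 + (fr p.1.2.2 p.2).2.1 ^ 2 + (fr p.1.2.2 p.2).2.2 ^ 2) :=
    ((k1.pow 2).add (k2.pow 2)).add (k3.pow 2)
  have k5 : ContDiff ℝ ∞ (fun p : E3 × E3 => (fr p.1.2.2 p.2).1 ^ 2 * (fr p.1.2.2 p.2).2.2 ^ 2) :=
    (k1.pow 2).mul (k3.pow 2)
  exact k4.contDiffAt.add (contDiffAt_const.mul (k5.contDiffAt.div k4.contDiffAt h2))

lemma G_zero (x : E3) : G (x, 0) = 0 := by
  have : fr x.2.2 (0 : E3) = 0 := by ext <;> simp [fr]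
  simp [G, this, P, phi]

lemma G_le (p : E3 × E3) : G p ≤ √(2 * (p.2.1 ^ 2 + p.2.2.1 ^ 2 + p.2.2.2 ^ 2)) := by
  unfold G
  apply Real.sqrt_le_sqrt
  refine (phi_le _ _ _).trans_eq ?_
  rw [fr_norm]

lemma G_ge (p : E3 × E3) : √(p.2.1 ^ 2 + p.2.2.1 ^ 2 + p.2.2.2 ^ 2) ≤ G p := by
  unfold G
  apply Real.sqrt_le_sqrt
  refine Eq.trans_le ?_ (phi_ge _ _ _)
  rw [fr_norm]

lemma G_nonneg (p : E3 × E3) : 0 ≤ G p := Real.sqrt_nonneg _

lemma G_continuous : Continuous G := by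
  rw [continuous_iff_continuousAt]
  rintro ⟨x, v⟩
  by_cases hv : v = 0
  · subst hv
    unfold ContinuousAt
    rw [G_zero]
    have hc : Continuous (fun p : E3 × E3 => √(2 * (p.2.1 ^ 2 + p.2.2.1 ^ 2 + p.2.2.2 ^ 2))) := by
      fun_prop
    have ht := hc.tendsto (x, 0)
    simp only [Prod.fst_zero, Prod.snd_zero, ne_eq, OfNat.ofNat_ne_zero, not_false_eq_true,
      zero_pow, add_zero, mul_zero, Real.sqrt_zero] at ht
    exact tendsto_of_tendsto_of_tendsto_of_le_of_le tendsto_const_nhds ht G_nonneg G_le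
  · exact (G_contDiffAt (x, v) hv).continuousAt

lemma G_smul (x v : E3) (c : ℝ) : G (x, c • v) = |c| * G (x, v) := by
  unfold G
  simp only
  rw [fr_smul, P_smul, Real.sqrt_mul (sq_nonneg c), Real.sqrt_sq_eq_abs]

lemma G_line (x v w : E3) (t : ℝ) : G (x, v + t • w) ^ 2 =
    phi ((fr x.2.2 v).1 + t * (fr x.2.2 w).1) ((fr x.2.2 v).2.1 + t * (fr x.2.2 w).2.1)
      ((fr x.2.2 v).2.2 + t * (fr x.2.2 w).2.2) := by
  rw [G_sq]
  simp only
  rw [fr_add, fr_smul]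
  rfl

lemma G_pos_smul (x v : E3) (c : ℝ) (hc : 0 < c) : G (x, c • v) = c * G (x, v) := by
  rw [G_smul, abs_of_pos hc]

lemma G_neg (x v : E3) : G (x, -v) = G (x, v) := by
  have : (-v : E3) = (-1 : ℝ) • (v : E3) := by simp
  rw [this, G_smul]
  simp

lemma FF_finsler : IsFinsler FF where
  nonneg v := G_nonneg _
  continuous := by
    have h : Continuous (tangentBundleModelSpaceHomeomorph 𝓘(ℝ, E3) :
      TangentBundle 𝓘(ℝ, E3) E3 → ModelProd E3 E3) := Homeomorph.continuous _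
    exact G_continuous.comp h
  smooth v hv := by
    have h1 : ContMDiff 𝓘(ℝ, E3).tangent 𝓘(ℝ, E3) ∞ (fun p : TangentBundle 𝓘(ℝ, E3) E3 => p.1) :=
      Bundle.contMDiff_proj _
    have h2 : ContMDiff 𝓘(ℝ, E3).tangent 𝓘(ℝ, E3) ∞ (fun p : TangentBundle 𝓘(ℝ, E3) E3 => p.2) :=
      contMDiff_snd_tangentBundle_modelSpace E3 𝓘(ℝ, E3)
    have h3 : ContMDiff 𝓘(ℝ, E3).tangent 𝓘(ℝ, E3 × E3) ∞
      (fun p : TangentBundle 𝓘(ℝ, E3) E3 => ((p.1, p.2) : E3 × E3)) := h1.prodMk_space h2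
    exact (G_contDiffAt (v.1, v.2) hv).contMDiffAt.comp v h3.contMDiffAt
  homog x v c hc := G_pos_smul x v c hc
  convex x v w hv hw := by
    have hv' : fr x.2.2 v ≠ 0 := fr_ne_zero hv
    have hw' : fr x.2.2 w ≠ 0 := fr_ne_zero hw
    have h := phi_convex (a := (fr x.2.2 v).1) (b := (fr x.2.2 v).2.1) (c := (fr x.2.2 v).2.2)
      (a' := (fr x.2.2 w).1) (b' := (fr x.2.2 w).2.1) (c' := (fr x.2.2 w).2.2)
      (fun h => hv' (Prod.ext h.1 (Prod.ext h.2.1 h.2.2)))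
      (fun h => hw' (Prod.ext h.1 (Prod.ext h.2.1 h.2.2)))
    have e : (fun t : ℝ => FF ⟨x, v + t • w⟩ ^ 2) = (fun t : ℝ =>
        phi ((fr x.2.2 v).1 + t * (fr x.2.2 w).1) ((fr x.2.2 v).2.1 + t * (fr x.2.2 w).2.1)
          ((fr x.2.2 v).2.2 + t * (fr x.2.2 w).2.2)) := by
      funext t
      exact G_line x v w t
    rw [e]
    exact h

lemma FF_reversible : IsReversible FF := by
  intro x v
  exact G_neg x v

/-! ### The transitive group -/

/-- the rotation part -/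
def dL (t : ℝ) : E3 →L[ℝ] E3 :=
  ((cos t) • (ContinuousLinearMap.fst ℝ ℝ (ℝ × ℝ)) -
    (sin t) • ((ContinuousLinearMap.fst ℝ ℝ ℝ).comp (ContinuousLinearMap.snd ℝ ℝ (ℝ × ℝ)))).prod
  (((sin t) • (ContinuousLinearMap.fst ℝ ℝ (ℝ × ℝ)) +
    (cos t) • ((ContinuousLinearMap.fst ℝ ℝ ℝ).comp (ContinuousLinearMap.snd ℝ ℝ (ℝ × ℝ)))).prod
   ((ContinuousLinearMap.snd ℝ ℝ ℝ).comp (ContinuousLinearMap.snd ℝ ℝ (ℝ × ℝ))))

lemma dL_apply (t : ℝ) (v : E3) :
    dL t v = (cos t * v.1 - sin t * v.2.1, sin t * v.1 + cos t * v.2.1, v.2.2) := by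
  simp [dL]

lemma fr_dL (s t : ℝ) (v : E3) : fr (s + t) (dL t v) = fr s v := by
  rw [dL_apply]
  have h := sin_sq_add_cos_sq t
  ext
  · simp only [fr, cos_add, sin_add]
    linear_combination (cos s * v.1 + sin s * v.2.1) * h
  · simp only [fr, cos_add, sin_add]
    linear_combination (- sin s * v.1 + cos s * v.2.1) * h
  · simp only [fr]

/-- the left translation -/
def LL (z : E3) : Diffeomorph 𝓘(ℝ, E3) 𝓘(ℝ, E3) E3 E3 ∞ where
  toFun x := z + dL z.2.2 x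
  invFun y := dL (-z.2.2) (y - z)
  left_inv x := by
    have h := sin_sq_add_cos_sq z.2.2
    simp only [add_sub_cancel_left]
    rw [dL_apply, dL_apply]
    ext
    · simp only [cos_neg, sin_neg]; linear_combination x.1 * h
    · simp only [cos_neg, sin_neg]; linear_combination x.2.1 * h
    · simp
  right_inv y := by
    have h := sin_sq_add_cos_sq z.2.2
    simp only
    rw [dL_apply, dL_apply]
    ext
    · simp only [cos_neg, sin_neg, Prod.fst_add, Prod.fst_sub, Prod.snd_sub]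
      linear_combination (y.1 - z.1) * h
    · simp only [cos_neg, sin_neg, Prod.fst_add, Prod.snd_add, Prod.fst_sub, Prod.snd_sub]
      linear_combination (y.2.1 - z.2.1) * h
    · simp
  contMDiff_toFun := by
    rw [contMDiff_iff_contDiff]
    simp only [Equiv.coe_fn_mk]
    exact contDiff_const.add (dL z.2.2).contDiff
  contMDiff_invFun := by
    rw [contMDiff_iff_contDiff]
    simp only [Equiv.coe_fn_symm_mk]
    exact (dL (-z.2.2)).contDiff.comp (contDiff_id.sub contDiff_const)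

lemma LL_apply (z x : E3) : LL z x = z + dL z.2.2 x := rfl

lemma LL_isometry (z : E3) (v : TangentBundle 𝓘(ℝ, E3) E3) :
    FF (tangentMap 𝓘(ℝ, E3) 𝓘(ℝ, E3) (LL z) v) = FF v := by
  have h1 : HasFDerivAt (LL z) (dL z.2.2) v.1 := by
    have := ((dL z.2.2).hasFDerivAt (x := v.1)).const_add z
    exact this
  have h2 : mfderiv 𝓘(ℝ, E3) 𝓘(ℝ, E3) (LL z) v.1 = dL z.2.2 := by
    rw [mfderiv_eq_fderiv]; exact h1.fderiv
  show G (LL z v.1, mfderiv 𝓘(ℝ, E3) 𝓘(ℝ, E3) (LL z) v.1 v.2) = G (v.1, v.2)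
  rw [h2]
  unfold G
  simp only
  have h3 : (LL z v.1).2.2 = (v.1 : E3).2.2 + z.2.2 := by
    rw [LL_apply, dL_apply]
    simp only [Prod.snd_add]
    ring
  rw [h3]
  congr 2
  exact fr_dL _ _ _

lemma FF_homogeneous : IsHomogeneous FF := by
  intro x y
  -- the group element `(z, t)` with `t = y₃ - x₃` and `z = y - R_t x`
  set t := y.2.2 - x.2.2 with ht
  set z : E3 := (y.1 - (dL t x).1, y.2.1 - (dL t x).2.1, t) with hz
  refine ⟨LL z, LL_isometry z, ?_⟩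
  rw [LL_apply]
  have : z.2.2 = t := rfl
  rw [this]
  ext
  · simp [hz]
  · simp [hz]
  · simp only [Prod.snd_add, hz, dL_apply, ht]; ring

end Pool.Agent.W544.HC
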