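import Pool.Agent.W544.HC.Disp

/-! The quotient is not homogeneous. -/

set_option autoImplicit false

open scoped Manifold ContDiff Topology
open Set MeasureTheory Real

noncomputable section

namespace Pool.Agent.W544.HC

attribute [local instance] act

section

variable {N : Type} [TopologicalSpace N] [ChartedSpace E3 N] [IsManifold 𝓘(ℝ, E3) ∞ N]
  {F' : TangentBundle 𝓘(ℝ, E3) N → ℝ} {p : E3 → N}

lemma mk_eq {M : Type} [TopologicalSpace M] [ChartedSpace E3 M] {a b : M} (h : a = b)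
    {v : TangentSpace 𝓘(ℝ, E3) a} {w : TangentSpace 𝓘(ℝ, E3) b} (hv : (v : E3) = (w : E3)) :
    (⟨a, v⟩ : TangentBundle 𝓘(ℝ, E3) M) = ⟨b, w⟩ := by
  subst h
  exact congrArg (Bundle.TotalSpace.mk a) hv

/-- An isometry of the quotient lifts locally, and the derivative of the lift preserves the norms. -/
lemma local_lift (h : IsQuotient (Multiplicative ℤ) FF F' p)
    (Φ : Diffeomorph 𝓘(ℝ, E3) 𝓘(ℝ, E3) N N ∞)
    (hΦ : ∀ v : TangentBundle 𝓘(ℝ, E3) N, F' (tangentMap 𝓘(ℝ, E3) 𝓘(ℝ, E3) Φ v) = F' v)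
    (x x' : E3) (hx : Φ (p x) = p x') :
    ∃ (g : E3 → E3) (A : E3 →L[ℝ] E3), HasFDerivAt g A x ∧ g x = x' ∧
      (∀ᶠ y in 𝓝 x, p (g y) = Φ (p y)) ∧ ∀ v : E3, G (x', A v) = G (x, v) := by
  have hl := h.localDiffeo x'
  set ψ := hl.localInverse with hψ
  have hpx : MDifferentiableAt 𝓘(ℝ, E3) 𝓘(ℝ, E3) p x :=
    (h.localDiffeo x).mdifferentiableAt (by simp)
  have hpx' : MDifferentiableAt 𝓘(ℝ, E3) 𝓘(ℝ, E3) p x' := hl.mdifferentiableAt (by simp)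
  have hΦp : MDifferentiableAt 𝓘(ℝ, E3) 𝓘(ℝ, E3) Φ (p x) :=
    (Φ.contMDiff.contMDiffAt).mdifferentiableAt (by simp)
  have hψd : MDifferentiableAt 𝓘(ℝ, E3) 𝓘(ℝ, E3) ψ (p x') :=
    hl.localInverse_mdifferentiableAt (by simp)
  have hψx : ψ (p x') = x' := hl.localInverse_left_inv hl.localInverse_mem_target
  set g : E3 → E3 := fun y => ψ (Φ (p y)) with hg
  have hgx : g x = x' := by rw [hg]; simp only; rw [hx, hψx]
  have hgd : MDifferentiableAt 𝓘(ℝ, E3) 𝓘(ℝ, E3) g x := by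
    have h1 : MDifferentiableAt 𝓘(ℝ, E3) 𝓘(ℝ, E3) (fun y => Φ (p y)) x := hΦp.comp x hpx
    have h2 : MDifferentiableAt 𝓘(ℝ, E3) 𝓘(ℝ, E3) ψ (Φ (p x)) := by rw [hx]; exact hψd
    exact MDifferentiableAt.comp x h2 h1
  have hgd' : DifferentiableAt ℝ g x := mdifferentiableAt_iff_differentiableAt.1 hgd
  -- `p ∘ g = Φ ∘ p` near `x`
  have hev : ∀ᶠ y in 𝓝 x, p (g y) = Φ (p y) := by
    have hcont : ContinuousAt (fun y => Φ (p y)) x :=
      ContinuousAt.comp (f := p) (g := Φ) Φ.continuous.continuousAt hpx.continuousAt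
    have hopen : ψ.source ∈ 𝓝 (Φ (p x)) := by
      rw [hx]; exact hl.localInverse_open_source.mem_nhds hl.localInverse_mem_source
    filter_upwards [hcont.eventually hopen] with y hy
    exact hl.localInverse_right_inv hy
  refine ⟨g, fderiv ℝ g x, hgd'.hasFDerivAt, hgx, hev, ?_⟩
  intro v
  have t1 : tangentMap 𝓘(ℝ, E3) 𝓘(ℝ, E3) (p ∘ g) (⟨x, v⟩ : TangentBundle 𝓘(ℝ, E3) E3) =
      tangentMap 𝓘(ℝ, E3) 𝓘(ℝ, E3) p (tangentMap 𝓘(ℝ, E3) 𝓘(ℝ, E3) g ⟨x, v⟩) := by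
    have hq : MDifferentiableAt 𝓘(ℝ, E3) 𝓘(ℝ, E3) p (g x) := by rw [hgx]; exact hpx'
    exact tangentMap_comp_at (I := 𝓘(ℝ, E3)) (I' := 𝓘(ℝ, E3)) (I'' := 𝓘(ℝ, E3)) ⟨x, v⟩ hq hgd
  have t2 : tangentMap 𝓘(ℝ, E3) 𝓘(ℝ, E3) (Φ ∘ p) (⟨x, v⟩ : TangentBundle 𝓘(ℝ, E3) E3) =
      tangentMap 𝓘(ℝ, E3) 𝓘(ℝ, E3) Φ (tangentMap 𝓘(ℝ, E3) 𝓘(ℝ, E3) p ⟨x, v⟩) := by
    exact tangentMap_comp_at (I := 𝓘(ℝ, E3)) (I' := 𝓘(ℝ, E3)) (I'' := 𝓘(ℝ, E3)) ⟨x, v⟩ hΦp hpx
  have hee : (p ∘ g) =ᶠ[𝓝 x] (Φ ∘ p) := hev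
  have t3 : tangentMap 𝓘(ℝ, E3) 𝓘(ℝ, E3) (p ∘ g) (⟨x, v⟩ : TangentBundle 𝓘(ℝ, E3) E3) =
      tangentMap 𝓘(ℝ, E3) 𝓘(ℝ, E3) (Φ ∘ p) ⟨x, v⟩ := by
    apply mk_eq hee.eq_of_nhds
    have := hee.mfderiv_eq (I := 𝓘(ℝ, E3)) (I' := 𝓘(ℝ, E3))
    exact congrArg (fun L : E3 →L[ℝ] E3 => L v) this
  have t4 : tangentMap 𝓘(ℝ, E3) 𝓘(ℝ, E3) g (⟨x, v⟩ : TangentBundle 𝓘(ℝ, E3) E3) =
      ⟨x', (fderiv ℝ g x v : E3)⟩ := by
    apply mk_eq hgx
    rw [mfderiv_eq_fderiv]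
    rfl
  have e1 : F' (tangentMap 𝓘(ℝ, E3) 𝓘(ℝ, E3) (p ∘ g) (⟨x, v⟩ : TangentBundle 𝓘(ℝ, E3) E3)) =
      G (x', fderiv ℝ g x v) := by
    rw [t1, h.induced, t4]; rfl
  have e2 : F' (tangentMap 𝓘(ℝ, E3) 𝓘(ℝ, E3) (Φ ∘ p) (⟨x, v⟩ : TangentBundle 𝓘(ℝ, E3) E3)) =
      G (x, v) := by
    rw [t2, hΦ, h.induced]; rfl
  rw [← e1, t3, e2]

omit [IsManifold 𝓘(ℝ, E3) ∞ N] in
lemma fibre_eq (h : IsQuotient (Multiplicative ℤ) FF F' p) {x y : E3} (hxy : p x = p y) :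
    x.2 = y.2 := by
  obtain ⟨g, hg⟩ := (h.fibre x y).1 hxy
  rw [← hg, smul_def]
  ext <;> simp [tv]

/-- the quotient is not homogeneous -/
theorem not_homogeneous (h : IsQuotient (Multiplicative ℤ) FF F' p) : ¬ IsHomogeneous F' := by
  intro hhom
  obtain ⟨Φ, hΦ, hΦ0⟩ := hhom (p (0, 0, π / 2)) (p 0)
  -- the last two coordinates are functions on the quotient
  set σ : N → E3 := Function.surjInv h.surjective with hσ
  have hpσ : ∀ n, p (σ n) = n := fun n => Function.surjInv_eq h.surjective n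
  set W : N → ℝ := fun n => (σ n).2.1 with hW
  set S : N → ℝ := fun n => (σ n).2.2 with hS
  have hWp : ∀ x, W (p x) = x.2.1 := fun x => congrArg Prod.fst (fibre_eq h (hpσ (p x)))
  have hSp : ∀ x, S (p x) = x.2.2 := fun x => congrArg Prod.snd (fibre_eq h (hpσ (p x)))
  set γ : ℝ → E3 := fun t => (-t, 0, π / 2) with hγ
  set H : ℝ → ℝ := fun t => W (Φ (p (γ t))) with hH
  set K : ℝ → ℝ := fun t => S (Φ (p (γ t))) with hK
  have hγd : ∀ t, HasDerivAt γ (-1, 0, 0) t := by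
    intro t
    exact (hasDerivAt_neg t).prodMk ((hasDerivAt_const t (0 : ℝ)).prodMk (hasDerivAt_const t (π / 2)))
  -- the derivatives of the two functions
  have key : ∀ t, HasDerivAt K 0 t ∧ (HasDerivAt H (cos (K t)) t ∨ HasDerivAt H (-cos (K t)) t) := by
    intro t
    have hx : Φ (p (γ t)) = p (σ (Φ (p (γ t)))) := (hpσ _).symm
    obtain ⟨g, A, hA, hgx, hev, hG⟩ := local_lift h Φ hΦ (γ t) _ hx
    set x' := σ (Φ (p (γ t))) with hx'
    have hKt : K t = x'.2.2 := rfl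
    have hcomp : HasDerivAt (fun t' => g (γ t')) (A (-1, 0, 0)) t :=
      hA.comp_hasDerivAt t (hγd t)
    have hev' : ∀ᶠ t' in 𝓝 t, p (g (γ t')) = Φ (p (γ t')) :=
      (hγd t).continuousAt.eventually hev
    -- the linear map in the frames
    let frL : ℝ → (E3 →ₗ[ℝ] E3) := fun s =>
      { toFun := fr s, map_add' := fr_add s, map_smul' := fr_smul s }
    let frL' : ℝ → (E3 →ₗ[ℝ] E3) := fun s =>
      { toFun := fr' s
        map_add' := by intro v w; ext <;> simp [fr'] <;> ring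
        map_smul' := by intro c v; ext <;> simp [fr'] <;> ring }
    let B : E3 →ₗ[ℝ] E3 := (frL x'.2.2).comp ((A : E3 →ₗ[ℝ] E3).comp (frL' (π / 2)))
    have hB : ∀ v, P (B v) = P v := by
      intro v
      have h1 := hG (fr' (π / 2) v)
      have h2 : G (x', A (fr' (π / 2) v)) ^ 2 = G (γ t, fr' (π / 2) v) ^ 2 := by rw [h1]
      rw [G_sq, G_sq] at h2
      simp only at h2
      have h3 : (γ t).2.2 = π / 2 := rfl
      rw [h3, fr_fr'] at h2
      exact h2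
    have hB1 : B (0, 1, 0) = fr x'.2.2 (A (-1, 0, 0)) := by
      show fr x'.2.2 (A (fr' (π / 2) (0, 1, 0))) = _
      have : fr' (π / 2) ((0, 1, 0) : E3) = (-1, 0, 0) := by
        simp [fr']
      rw [this]
    have hAe : A (-1, 0, 0) = fr' x'.2.2 (B (0, 1, 0)) := by
      rw [hB1, fr'_fr]
    have hAcase : A (-1, 0, 0) = (-sin x'.2.2, cos x'.2.2, 0) ∨
        A (-1, 0, 0) = (sin x'.2.2, -cos x'.2.2, 0) := by
      rcases lin_axis B hB with hb | hb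
      · left; rw [hAe, hb]; simp [fr']
      · right; rw [hAe, hb]; simp [fr']
    have hK' : HasDerivAt K (A (-1, 0, 0)).2.2 t := by
      have h1 : HasDerivAt (fun t' => (g (γ t')).2.2) (A (-1, 0, 0)).2.2 t := hcomp.snd.snd
      refine h1.congr_of_eventuallyEq ?_
      filter_upwards [hev'] with t' ht'
      show S (Φ (p (γ t'))) = (g (γ t')).2.2
      rw [← ht', hSp]
    have hH' : HasDerivAt H (A (-1, 0, 0)).2.1 t := by
      have h1 : HasDerivAt (fun t' => (g (γ t')).2.1) (A (-1, 0, 0)).2.1 t := hcomp.snd.fst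
      refine h1.congr_of_eventuallyEq ?_
      filter_upwards [hev'] with t' ht'
      show W (Φ (p (γ t'))) = (g (γ t')).2.1
      rw [← ht', hWp]
    rw [hKt]
    rcases hAcase with hc | hc
    · rw [hc] at hK' hH'
      exact ⟨hK', Or.inl hH'⟩
    · rw [hc] at hK' hH'
      exact ⟨hK', Or.inr hH'⟩
  -- `K` is constant
  have hKconst : ∀ t, K t = 0 := by
    intro t
    have h1 : K t = K 0 := by
      apply is_const_of_deriv_eq_zero (fun t => (key t).1.differentiableAt)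
      intro t
      exact (key t).1.deriv
    rw [h1]
    show S (Φ (p (γ 0))) = 0
    have : γ 0 = (0, 0, π / 2) := by simp [hγ]
    rw [this, hΦ0, hSp]
    rfl
  have hHd : ∀ t, deriv H t = 1 ∨ deriv H t = -1 := by
    intro t
    rcases (key t).2 with h1 | h1
    · left; rw [h1.deriv, hKconst, cos_zero]
    · right; rw [h1.deriv, hKconst, cos_zero]
  have hHc : Continuous H := by
    rw [continuous_iff_continuousAt]
    intro t
    rcases (key t).2 with h1 | h1 <;> exact h1.continuousAt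
  have hper : H 0 = H 1 := by
    show W (Φ (p (γ 0))) = W (Φ (p (γ 1)))
    have : p (γ 0) = p (γ 1) := by
      rw [h.fibre]
      refine ⟨Multiplicative.ofAdd (-1 : ℤ), ?_⟩
      rw [smul_def]
      ext <;> simp [hγ, tv]
    rw [this]
  obtain ⟨c, -, hc⟩ := exists_deriv_eq_zero zero_lt_one hHc.continuousOn hper
  rcases hHd c with h1 | h1 <;> rw [hc] at h1 <;> norm_num at h1

end

end Pool.Agent.W544.HC
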