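import Mathlib

/-! The Minkowski norm `φ` on `ℝ³`. -/

set_option autoImplicit false

open scoped ContDiff Topology
open Set

noncomputable section

namespace Pool.Agent.W544.HC

/-- the square of the norm -/
def phi (a b c : ℝ) : ℝ := a ^ 2 + b ^ 2 + c ^ 2 + (1 / 10) * (a ^ 2 * c ^ 2 / (a ^ 2 + b ^ 2 + c ^ 2))

lemma phi_ge (a b c : ℝ) : a ^ 2 + b ^ 2 + c ^ 2 ≤ phi a b c := by
  unfold phi
  have : 0 ≤ (1 / 10) * (a ^ 2 * c ^ 2 / (a ^ 2 + b ^ 2 + c ^ 2)) := by positivity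
  linarith

lemma phi_nonneg (a b c : ℝ) : 0 ≤ phi a b c :=
  le_trans (by positivity) (phi_ge a b c)

lemma phi_le (a b c : ℝ) : phi a b c ≤ 2 * (a ^ 2 + b ^ 2 + c ^ 2) := by
  unfold phi
  have h1 : a ^ 2 * c ^ 2 / (a ^ 2 + b ^ 2 + c ^ 2) ≤ a ^ 2 + b ^ 2 + c ^ 2 := by
    apply div_le_of_le_mul₀ (by positivity) (by positivity)
    have e : (a ^ 2 + b ^ 2 + c ^ 2) * (a ^ 2 + b ^ 2 + c ^ 2) - a ^ 2 * c ^ 2 =
      (a ^ 2) ^ 2 + (b ^ 2) ^ 2 + (c ^ 2) ^ 2 + 2 * a ^ 2 * b ^ 2 + a ^ 2 * c ^ 2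
        + 2 * b ^ 2 * c ^ 2 := by ring
    have : 0 ≤ (a ^ 2 + b ^ 2 + c ^ 2) * (a ^ 2 + b ^ 2 + c ^ 2) - a ^ 2 * c ^ 2 := by
      rw [e]; positivity
    linarith
  have h0 : 0 ≤ a ^ 2 + b ^ 2 + c ^ 2 := by positivity
  linarith

lemma phi_smul (t a b c : ℝ) : phi (t * a) (t * b) (t * c) = t ^ 2 * phi a b c := by
  unfold phi
  by_cases ht : t = 0
  · subst ht; simp
  by_cases h : a ^ 2 + b ^ 2 + c ^ 2 = 0
  · have h1 : (t * a) ^ 2 + (t * b) ^ 2 + (t * c) ^ 2 = 0 := by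
      have : (t * a) ^ 2 + (t * b) ^ 2 + (t * c) ^ 2 = t ^ 2 * (a ^ 2 + b ^ 2 + c ^ 2) := by ring
      rw [this, h, mul_zero]
    rw [h1, h]; simp
  · have h1 : (t * a) ^ 2 + (t * b) ^ 2 + (t * c) ^ 2 = t ^ 2 * (a ^ 2 + b ^ 2 + c ^ 2) := by ring
    rw [h1]
    field_simp

lemma phi_zero_right (a b : ℝ) : phi a b 0 = a ^ 2 + b ^ 2 := by
  unfold phi; simp

lemma sum_sq_pos {a b c : ℝ} (h : ¬ (a = 0 ∧ b = 0 ∧ c = 0)) : 0 < a ^ 2 + b ^ 2 + c ^ 2 := by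
  by_contra hc
  push Not at hc
  apply h
  have h1 := sq_nonneg a
  have h2 := sq_nonneg b
  have h3 := sq_nonneg c
  exact ⟨pow_eq_zero_iff (two_ne_zero) |>.1 (by linarith),
    pow_eq_zero_iff (two_ne_zero) |>.1 (by linarith),
    pow_eq_zero_iff (two_ne_zero) |>.1 (by linarith)⟩

lemma phi_pos {a b c : ℝ} (h : ¬ (a = 0 ∧ b = 0 ∧ c = 0)) : 0 < phi a b c :=
  lt_of_lt_of_le (sum_sq_pos h) (phi_ge a b c)

/-- strong convexity -/
lemma phi_convex {a b c a' b' c' : ℝ} (h : ¬ (a = 0 ∧ b = 0 ∧ c = 0))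
    (h' : ¬ (a' = 0 ∧ b' = 0 ∧ c' = 0)) :
    0 < iteratedDeriv 2 (fun t : ℝ => phi (a + t * a') (b + t * b') (c + t * c')) 0 := by
  set q : ℝ → ℝ := fun t => (a + t * a') ^ 2 + (b + t * b') ^ 2 + (c + t * c') ^ 2 with hq
  set q1 : ℝ → ℝ := fun t => 2 * (a + t * a') * a' + 2 * (b + t * b') * b' + 2 * (c + t * c') * c'
    with hq1
  set p : ℝ → ℝ := fun t => (a + t * a') ^ 2 * (c + t * c') ^ 2 with hp
  set p1 : ℝ → ℝ := fun t => 2 * (a + t * a') * a' * (c + t * c') ^ 2 +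
    (a + t * a') ^ 2 * (2 * (c + t * c') * c') with hp1
  set q2 : ℝ := 2 * a' ^ 2 + 2 * b' ^ 2 + 2 * c' ^ 2 with hq2
  set p2 : ℝ := 2 * (a' * c + a * c') ^ 2 + 4 * (a * c) * (a' * c') with hp2
  have hl : ∀ (u u' t : ℝ), HasDerivAt (fun t : ℝ => u + t * u') u' t := by
    intro u u' t
    simpa using ((hasDerivAt_id t).mul_const u').const_add u
  have dq : ∀ t, HasDerivAt q (q1 t) t := by
    intro t
    have := (((hl a a' t).pow 2).add ((hl b b' t).pow 2)).add ((hl c c' t).pow 2)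
    exact this.congr_deriv (by simp [hq1])
  have dp : ∀ t, HasDerivAt p (p1 t) t := by
    intro t
    have := ((hl a a' t).pow 2).mul ((hl c c' t).pow 2)
    exact this.congr_deriv (by simp [hp1])
  have dq1 : HasDerivAt q1 q2 0 := by
    have := ((((hl a a' 0).const_mul 2).mul_const a').add
      (((hl b b' 0).const_mul 2).mul_const b')).add (((hl c c' 0).const_mul 2).mul_const c')
    exact this.congr_deriv (by simp [hq2]; ring)
  have dp1 : HasDerivAt p1 p2 0 := by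
    have := ((((hl a a' 0).const_mul 2).mul_const a').mul ((hl c c' 0).pow 2)).add
      (((hl a a' 0).pow 2).mul (((hl c c' 0).const_mul 2).mul_const c'))
    exact this.congr_deriv (by simp [hp2]; ring)
  have hQ : 0 < q 0 := by
    have := sum_sq_pos h
    simpa [hq] using this
  have hW : 0 < a' ^ 2 + b' ^ 2 + c' ^ 2 := sum_sq_pos h'
  have hcont : Continuous q := by
    rw [hq]; fun_prop
  have hev : ∀ᶠ t in 𝓝 (0 : ℝ), 0 < q t := hcont.continuousAt.eventually (lt_mem_nhds hQ)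
  have hf : (fun t : ℝ => phi (a + t * a') (b + t * b') (c + t * c')) =
      fun t => q t + (1 / 10) * (p t / q t) := by
    funext t; simp [phi, hq, hp]
  rw [hf, iteratedDeriv_succ, iteratedDeriv_one]
  have hder : deriv (fun t => q t + (1 / 10) * (p t / q t)) =ᶠ[𝓝 0]
      fun t => q1 t + (1 / 10) * ((p1 t * q t - p t * q1 t) / q t ^ 2) := by
    filter_upwards [hev] with t ht
    exact ((dq t).add (((dp t).div (dq t) ht.ne').const_mul (1 / 10))).deriv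
  rw [hder.deriv_eq]
  have hnum := ((dp1.mul (dq 0)).sub ((dp 0).mul dq1))
  have hden := (dq 0).pow 2
  have hfin := dq1.add ((hnum.div hden (by simpa using hQ.ne')).const_mul (1 / 10))
  -- the inequality
  have e0 : q 0 = a ^ 2 + b ^ 2 + c ^ 2 := by simp [hq]
  have e1 : q1 0 = 2 * (a * a' + b * b' + c * c') := by simp [hq1]; ring
  have e2 : p 0 = a ^ 2 * c ^ 2 := by simp [hp]
  have e3 : p1 0 = 2 * (a * c) * (a' * c + a * c') := by simp [hp1]; ring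
  set Q := a ^ 2 + b ^ 2 + c ^ 2 with hQd
  set W := a' ^ 2 + b' ^ 2 + c' ^ 2 with hWd
  set s := a * a' + b * b' + c * c' with hs
  set m := a' * c + a * c' with hm
  have hQ0 : 0 < Q := by rw [← e0]; exact hQ
  have b1 : s ^ 2 ≤ Q * W := by
    have e : Q * W - s ^ 2 = (a * b' - b * a') ^ 2 + (a * c' - c * a') ^ 2 + (b * c' - c * b') ^ 2 := by
      rw [hs, hQd, hWd]; ring
    have : 0 ≤ Q * W - s ^ 2 := by rw [e]; positivity
    linarith
  have b2 : m ^ 2 ≤ Q * W := by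
    have e : Q * W - m ^ 2 = (a * a' - c * c') ^ 2 + (a * b') ^ 2 + (b * a') ^ 2 + (b * b') ^ 2 +
        (b * c') ^ 2 + (c * b') ^ 2 := by
      rw [hm, hQd, hWd]; ring
    have : 0 ≤ Q * W - m ^ 2 := by rw [e]; positivity
    linarith
  have b3 : |a * c| ≤ Q / 2 := by
    have e1 : Q / 2 - a * c = (a - c) ^ 2 / 2 + b ^ 2 / 2 := by rw [hQd]; ring
    have e2 : Q / 2 + a * c = (a + c) ^ 2 / 2 + b ^ 2 / 2 := by rw [hQd]; ring
    have f1 : 0 ≤ Q / 2 - a * c := by rw [e1]; positivity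
    have f2 : 0 ≤ Q / 2 + a * c := by rw [e2]; positivity
    exact abs_le.2 ⟨by linarith, by linarith⟩
  have b4 : |a' * c'| ≤ W / 2 := by
    have e1 : W / 2 - a' * c' = (a' - c') ^ 2 / 2 + b' ^ 2 / 2 := by rw [hWd]; ring
    have e2 : W / 2 + a' * c' = (a' + c') ^ 2 / 2 + b' ^ 2 / 2 := by rw [hWd]; ring
    have f1 : 0 ≤ W / 2 - a' * c' := by rw [e1]; positivity
    have f2 : 0 ≤ W / 2 + a' * c' := by rw [e2]; positivity
    exact abs_le.2 ⟨by linarith, by linarith⟩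
  have b5 : |m * s| ≤ Q * W := by
    have e1 : (m + s) ^ 2 = m ^ 2 + 2 * (m * s) + s ^ 2 := by ring
    have e2 : (m - s) ^ 2 = m ^ 2 - 2 * (m * s) + s ^ 2 := by ring
    have f1 := sq_nonneg (m + s)
    have f2 := sq_nonneg (m - s)
    rw [e1] at f1
    rw [e2] at f2
    exact abs_le.2 ⟨by linarith, by linarith⟩
  have b6 : |(a * c) * (a' * c')| ≤ (Q / 2) * (W / 2) := by
    rw [abs_mul]; exact mul_le_mul b3 b4 (abs_nonneg _) (by positivity)
  have b7 : |(a * c) * (m * s)| ≤ (Q / 2) * (Q * W) := by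
    rw [abs_mul]; exact mul_le_mul b3 b5 (abs_nonneg _) (by positivity)
  have b8 : (a * c) ^ 2 ≤ (Q / 2) ^ 2 := by
    rw [← sq_abs]; exact pow_le_pow_left₀ (abs_nonneg _) b3 2
  have b6' := (abs_le.1 b6).1
  have b7' := (abs_le.1 b7).2
  have hp2' : -(Q * W) ≤ p2 := by
    have e : p2 = 2 * m ^ 2 + 4 * ((a * c) * (a' * c')) := by rw [hp2]; ring
    have f := sq_nonneg m
    rw [e]
    linarith
  have hq2' : q2 = 2 * W := by rw [hq2, hWd]; ring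
  have key : 0 < 20 * W * Q ^ 4 + (Q ^ 3 * p2 - 2 * (a * c) ^ 2 * W * Q ^ 2
      - 4 * Q ^ 2 * (2 * ((a * c) * (m * s))) + 8 * Q * (a * c) ^ 2 * s ^ 2) := by
    have k1 : -(Q ^ 4 * W) ≤ Q ^ 3 * p2 := by
      have := mul_le_mul_of_nonneg_left hp2' (show 0 ≤ Q ^ 3 by positivity)
      calc -(Q ^ 4 * W) = Q ^ 3 * (-(Q * W)) := by ring
        _ ≤ _ := this
    have k2 : 2 * (a * c) ^ 2 * W * Q ^ 2 ≤ Q ^ 4 * W / 2 := by
      have := mul_le_mul_of_nonneg_left b8 (show 0 ≤ 2 * W * Q ^ 2 by positivity)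
      calc 2 * (a * c) ^ 2 * W * Q ^ 2 = 2 * W * Q ^ 2 * (a * c) ^ 2 := by ring
        _ ≤ _ := this
        _ = _ := by ring
    have k3 : 4 * Q ^ 2 * (2 * ((a * c) * (m * s))) ≤ 4 * Q ^ 4 * W := by
      have := mul_le_mul_of_nonneg_left b7' (show 0 ≤ 8 * Q ^ 2 by positivity)
      calc 4 * Q ^ 2 * (2 * ((a * c) * (m * s))) = 8 * Q ^ 2 * ((a * c) * (m * s)) := by ring
        _ ≤ _ := this
        _ = _ := by ring
    have k4 : 0 ≤ 8 * Q * (a * c) ^ 2 * s ^ 2 := by positivity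
    have k5 : 0 < Q ^ 4 * W := by positivity
    have k6 : 20 * W * Q ^ 4 = 20 * (Q ^ 4 * W) := by ring
    have k7 : 4 * Q ^ 4 * W = 4 * (Q ^ 4 * W) := by ring
    rw [k6]
    rw [k7] at k3
    linarith
  have final : (0 : ℝ) < 2 * W + (1 / 10) * ((Q ^ 3 * p2 - 2 * (a * c) ^ 2 * W * Q ^ 2
      - 4 * Q ^ 2 * (2 * ((a * c) * (m * s))) + 8 * Q * (a * c) ^ 2 * s ^ 2) / Q ^ 4) := by
    have : 2 * W + (1 / 10) * ((Q ^ 3 * p2 - 2 * (a * c) ^ 2 * W * Q ^ 2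
      - 4 * Q ^ 2 * (2 * ((a * c) * (m * s))) + 8 * Q * (a * c) ^ 2 * s ^ 2) / Q ^ 4) =
      (20 * W * Q ^ 4 + (Q ^ 3 * p2 - 2 * (a * c) ^ 2 * W * Q ^ 2
      - 4 * Q ^ 2 * (2 * ((a * c) * (m * s))) + 8 * Q * (a * c) ^ 2 * s ^ 2)) / (10 * Q ^ 4) := by
      field_simp
      ring
    rw [this]
    positivity
  have hG : HasDerivAt (fun t => q1 t + (1 / 10) * ((p1 t * q t - p t * q1 t) / q t ^ 2))
      (2 * W + (1 / 10) * ((Q ^ 3 * p2 - 2 * (a * c) ^ 2 * W * Q ^ 2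
      - 4 * Q ^ 2 * (2 * ((a * c) * (m * s))) + 8 * Q * (a * c) ^ 2 * s ^ 2) / Q ^ 4)) 0 := by
    refine hfin.congr_deriv ?_
    simp only [Pi.mul_apply, Pi.sub_apply, Pi.pow_apply]
    rw [e0, e1, e2, e3, hq2']
    have hQne : Q ≠ 0 := hQ0.ne'
    field_simp
    push_cast
    ring
  rw [hG.deriv]
  exact final

end Pool.Agent.W544.HC
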