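import Pool.Agent.W544.HC.Defs

/-! Quotients of a vector space by a free properly discontinuous action: the smooth structure and the
induced Finsler function. -/

set_option autoImplicit false

open scoped Manifold ContDiff Topology
open Set

noncomputable section

namespace Pool.Agent.W544.HC

section Quot

variable {E : Type} [NormedAddCommGroup E] [NormedSpace ℝ E] {N : Type} [TopologicalSpace N]
  {f : E → N}

/-- the fibres of `f` are related by smooth deck maps -/
def Deck (f : E → N) : Prop :=
  ∀ x y : E, f x = f y → ∃ φ : E → E, ContDiff ℝ ∞ φ ∧ φ x = y ∧ ∀ z, f (φ z) = f z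

lemma localInverseAt_apply (hf : IsLocalHomeomorph f) (a : E) {w : E}
    (hw : w ∈ (hf.localInverseAt a).target) : hf.localInverseAt a (f w) = w := by
  have := (hf.localInverseAt a).right_inv hw
  rwa [hf.localInverseAt_symm a] at this

lemma transition_eventuallyEq (hf : IsLocalHomeomorph f) {φ : E → E} (h1 : Continuous φ)
    (h3 : ∀ z, f (φ z) = f z) {y z : E} (hz : φ z ∈ (hf.localInverseAt y).target) :
    (fun w => hf.localInverseAt y (f w)) =ᶠ[𝓝 z] φ := by
  have : ∀ᶠ w in 𝓝 z, φ w ∈ (hf.localInverseAt y).target :=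
    h1.continuousAt.eventually ((hf.localInverseAt y).open_target.mem_nhds hz)
  filter_upwards [this] with w hw
  rw [← h3 w, localInverseAt_apply hf y hw]

lemma smooth_transition (hf : IsLocalHomeomorph f) (hd : Deck f) (y z : E)
    (hz : f z ∈ (hf.localInverseAt y).source) :
    ContDiffAt ℝ ∞ (fun w => hf.localInverseAt y (f w)) z := by
  obtain ⟨φ, h1, h2, h3⟩ := hd z (hf.localInverseAt y (f z))
    (hf.apply_localInverseAt_of_mem hz).symm
  refine h1.contDiffAt.congr_of_eventuallyEq (transition_eventuallyEq hf h1.continuous h3 ?_)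
  rw [h2]
  exact (hf.localInverseAt y).map_source hz

/-- the chosen point of the fibre -/
def sec (hs : Function.Surjective f) (q : N) : E :=
  (Function.Surjective.hasRightInverse hs : ∃ g, Function.RightInverse g f).choose q

/-- the quotient is a smooth manifold -/
theorem quot_isManifold (hf : IsLocalHomeomorph f) (hs : Function.Surjective f) (hd : Deck f) :
    @IsManifold ℝ _ E _ _ E _ 𝓘(ℝ, E) ∞ N _ (hf.chartedSpace hs) := by
  let _ : ChartedSpace E N := hf.chartedSpace hs
  apply isManifold_of_contDiffOn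
  rintro e e' ⟨a, rfl⟩ ⟨b, rfl⟩
  intro z hz
  have hz1 : f z ∈ (hf.localInverseAt (sec hs b)).source := by
    have h := hz.1.2.1
    have h' : (hf.localInverseAt (sec hs a)).symm z ∈ (hf.localInverseAt (sec hs b)).source := h
    rwa [hf.localInverseAt_symm] at h'
  have := smooth_transition hf hd (sec hs b) z hz1
  refine (this.congr_of_eventuallyEq ?_).contDiffWithinAt
  refine Filter.Eventually.of_forall fun w => ?_
  show hf.localInverseAt (sec hs b) ((hf.localInverseAt (sec hs a)).symm w) =
    hf.localInverseAt (sec hs b) (f w)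
  rw [hf.localInverseAt_symm]


section Smooth

variable [ChartedSpace E N] [IsManifold 𝓘(ℝ, E) ∞ N]

lemma chart_symm_eq (hf : IsLocalHomeomorph f) {q : N} {x : E}
    (hx : chartAt E q = hf.localInverseAt x) (z : E) : (chartAt E q).symm z = f z := by
  rw [hx, hf.localInverseAt_symm]

lemma f_contMDiffAt (hf : IsLocalHomeomorph f) (hd : Deck f)
    (hc : ∀ q : N, ∃ x : E, chartAt E q = hf.localInverseAt x) (x : E) :
    ContMDiffAt 𝓘(ℝ, E) 𝓘(ℝ, E) ∞ f x := by
  obtain ⟨a, ha⟩ := hc (f x)
  have hsrc : f x ∈ (hf.localInverseAt a).source := by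
    rw [← ha]; exact mem_chart_source E (f x)
  obtain ⟨φ, h1, h2, h3⟩ := hd x (hf.localInverseAt a (f x))
    (hf.apply_localInverseAt_of_mem hsrc).symm
  have h4 : ContMDiffAt 𝓘(ℝ, E) 𝓘(ℝ, E) ∞ (chartAt E (f x)).symm (φ x) := by
    apply (contMDiffOn_chart_symm (I := 𝓘(ℝ, E)) (x := f x)).contMDiffAt
    apply (chartAt E (f x)).open_target.mem_nhds
    rw [h2, ha]
    exact (hf.localInverseAt a).map_source hsrc
  have h5 : ContMDiffAt 𝓘(ℝ, E) 𝓘(ℝ, E) ∞ φ x := h1.contMDiff.contMDiffAt
  have h6 := h4.comp x h5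
  refine h6.congr_of_eventuallyEq (Filter.Eventually.of_forall fun w => ?_)
  show f w = (chartAt E (f x)).symm (φ w)
  rw [chart_symm_eq hf ha, h3]

lemma inv_contMDiffAt (hf : IsLocalHomeomorph f) (hd : Deck f)
    (hc : ∀ q : N, ∃ x : E, chartAt E q = hf.localInverseAt x) (x : E) {m : N}
    (hm : m ∈ (hf.localInverseAt x).source) :
    ContMDiffAt 𝓘(ℝ, E) 𝓘(ℝ, E) ∞ (hf.localInverseAt x) m := by
  obtain ⟨a, ha⟩ := hc m
  have hsrc : m ∈ (hf.localInverseAt a).source := by
    rw [← ha]; exact mem_chart_source E m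
  set z := hf.localInverseAt a m with hz
  have hfz : f z = m := hf.apply_localInverseAt_of_mem hsrc
  have h1 := smooth_transition hf hd x z (by rw [hfz]; exact hm)
  have h2 : ContMDiffAt 𝓘(ℝ, E) 𝓘(ℝ, E) ∞ (chartAt E m) m :=
    (contMDiffOn_chart (I := 𝓘(ℝ, E)) (x := m)).contMDiffAt
      ((chartAt E m).open_source.mem_nhds (mem_chart_source E m))
  have h3 : (chartAt E m) m = z := by rw [ha]
  have h4 : ContMDiffAt 𝓘(ℝ, E) 𝓘(ℝ, E) ∞ (fun w => hf.localInverseAt x (f w)) (chartAt E m m) := by
    rw [h3]; exact h1.contMDiffAt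
  have h5 := h4.comp m h2
  refine h5.congr_of_eventuallyEq ?_
  filter_upwards [(chartAt E m).open_source.mem_nhds (mem_chart_source E m)] with w hw
  show hf.localInverseAt x w = hf.localInverseAt x (f (chartAt E m w))
  rw [← chart_symm_eq hf ha, (chartAt E m).left_inv hw]

/-- the projection is a local diffeomorphism -/
theorem f_localDiffeo (hf : IsLocalHomeomorph f) (hd : Deck f)
    (hc : ∀ q : N, ∃ x : E, chartAt E q = hf.localInverseAt x) :
    IsLocalDiffeomorph 𝓘(ℝ, E) 𝓘(ℝ, E) ∞ f := by
  intro x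
  refine ⟨{ toPartialEquiv := (hf.localInverseAt x).symm.toPartialEquiv
            open_source := (hf.localInverseAt x).open_target
            open_target := (hf.localInverseAt x).open_source
            contMDiffOn_toFun := ?_
            contMDiffOn_invFun := ?_ }, ?_, ?_⟩
  · intro z _
    have h := f_contMDiffAt hf hd hc z
    have e : (hf.localInverseAt x).symm = f := hf.localInverseAt_symm x
    show ContMDiffWithinAt 𝓘(ℝ, E) 𝓘(ℝ, E) ∞ ((hf.localInverseAt x).symm) _ z
    rw [e]
    exact h.contMDiffWithinAt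
  · intro m hm
    exact (inv_contMDiffAt hf hd hc x hm).contMDiffWithinAt
  · exact hf.self_mem_localInverseAt_target
  · intro z _
    exact (congrFun (hf.localInverseAt_symm x) z).symm

end Smooth

end Quot

end Pool.Agent.W544.HC
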